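import Pool.Agent.Helper68.SG.Defs

/-! Part B, first file: the ruler sequence, refinement of views, transfer of paths. -/

set_option autoImplicit false

namespace Pool.Agent.Helper68.SG

theorem pow_dvd_iff_le_v2 {n k : ℕ} (hn : 0 < n) : 2 ^ k ∣ n ↔ k ≤ v2 n := by
  unfold v2; exact padicValNat_dvd_iff_le hn.ne'

theorem v2_congr {x y M : ℕ} (h : x ≡ y [MOD 2 ^ M]) (hy : ¬ 2 ^ M ∣ y) : v2 x = v2 y := by
  have hx : ¬ 2 ^ M ∣ x := fun h1 => hy ((Nat.ModEq.dvd_iff h dvd_rfl).1 h1)
  have hy0 : 0 < y := Nat.pos_of_ne_zero (fun h0 => hy (h0 ▸ dvd_zero _))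
  have hx0 : 0 < x := Nat.pos_of_ne_zero (fun h0 => hx (h0 ▸ dvd_zero _))
  apply eq_of_forall_le_iff
  intro k
  rw [← pow_dvd_iff_le_v2 hx0, ← pow_dvd_iff_le_v2 hy0]
  rcases le_total k M with hk | hk
  · exact Nat.ModEq.dvd_iff h (pow_dvd_pow 2 hk)
  · constructor
    · intro h1; exact absurd ((pow_dvd_pow 2 hk).trans h1) hx
    · intro h1; exact absurd ((pow_dvd_pow 2 hk).trans h1) hy

theorem modEq_of_v2 {x y M : ℕ} (hx : 0 < x) (hy : 0 < y) (h : v2 x = v2 y) (hM : 2 ^ M ∣ y) :
    x ≡ y [MOD 2 ^ (M + 1)] := by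
  have hiff : ∀ k, 2 ^ k ∣ x ↔ 2 ^ k ∣ y := fun k => by
    rw [pow_dvd_iff_le_v2 hx, h, ← pow_dvd_iff_le_v2 hy]
  have hMx : 2 ^ M ∣ x := (hiff M).2 hM
  by_cases h1 : 2 ^ (M + 1) ∣ y
  · have h2 : 2 ^ (M + 1) ∣ x := (hiff _).2 h1
    exact (Nat.modEq_zero_iff_dvd.2 h2).trans (Nat.modEq_zero_iff_dvd.2 h1).symm
  · have h2 : ¬ 2 ^ (M + 1) ∣ x := fun h3 => h1 ((hiff _).1 h3)
    obtain ⟨x', rfl⟩ := hMx
    obtain ⟨y', rfl⟩ := hM
    have hp : 0 < 2 ^ M := by positivity
    rw [pow_succ, Nat.mul_dvd_mul_iff_left hp] at h1 h2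
    rw [pow_succ]
    apply Nat.ModEq.mul_left'
    have hx' : x' % 2 = 1 := by omega
    have hy' : y' % 2 = 1 := by omega
    show x' % 2 = y' % 2
    rw [hx', hy']

/-- index of the cell of time `t` -/
def cel (r t : ℕ) : ℕ := (t - 1) / 2 ^ r

/-- offset in the cell of time `t` -/
def off (r t : ℕ) : ℕ := (t - 1) % 2 ^ r

theorem cel_off (r : ℕ) {t : ℕ} (ht : 0 < t) : t = 1 + cel r t * 2 ^ r + off r t := by
  unfold cel off
  have := Nat.div_add_mod (t - 1) (2 ^ r)
  rw [mul_comm] at this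
  omega

theorem off_lt (r t : ℕ) : off r t < 2 ^ r := Nat.mod_lt _ (by positivity)

theorem cel_mk {r c y : ℕ} (hy : y < 2 ^ r) : cel r (1 + c * 2 ^ r + y) = c := by
  unfold cel
  have : 1 + c * 2 ^ r + y - 1 = y + c * 2 ^ r := by omega
  rw [this, Nat.add_mul_div_right _ _ (by positivity), Nat.div_eq_of_lt hy, zero_add]

theorem off_mk {r c y : ℕ} (hy : y < 2 ^ r) : off r (1 + c * 2 ^ r + y) = y := by
  unfold off
  have : 1 + c * 2 ^ r + y - 1 = y + c * 2 ^ r := by omega
  rw [this, Nat.add_mul_mod_self_right, Nat.mod_eq_of_lt hy]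

/-- refined time -/
def nt (r h i t : ℕ) : ℕ := 1 + (2 ^ h * cel r t + i) * 2 ^ r + off r t

theorem nt_pos (r h i t : ℕ) : 0 < nt r h i t := by unfold nt; omega

theorem cel_nt (r h i t : ℕ) : cel r (nt r h i t) = 2 ^ h * cel r t + i := cel_mk (off_lt r t)

theorem off_nt (r h i t : ℕ) : off r (nt r h i t) = off r t := off_mk (off_lt r t)

theorem cel_eq_of_no_mult {r s t : ℕ} (hs : 0 < s) (hst : s ≤ t)
    (h : ∀ z, s ≤ z → z < t → ¬ 2 ^ r ∣ z) : cel r t = cel r s := by
  obtain ⟨d, rfl⟩ := Nat.exists_eq_add_of_le hst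
  clear hst
  induction d with
  | zero => simp
  | succ d ih =>
    have ih' := ih (fun z h1 h2 => h z h1 (by omega))
    rw [← ih']
    unfold cel
    have h1 : s + (d + 1) - 1 = (s + d - 1) + 1 := by omega
    rw [h1, Nat.succ_div]
    have h2 : ¬ 2 ^ r ∣ s + d - 1 + 1 := by
      have : s + d - 1 + 1 = s + d := by omega
      rw [this]
      exact h (s + d) (by omega) (by omega)
    rw [if_neg h2, add_zero]

theorem cel_lt_of_mult {r s t z : ℕ} (hs : 0 < s) (h1 : s ≤ z) (h2 : z < t) (h3 : 2 ^ r ∣ z) :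
    cel r s < cel r t := by
  obtain ⟨c, rfl⟩ := h3
  unfold cel
  have hp : 0 < 2 ^ r := by positivity
  have h4 : (s - 1) / 2 ^ r < c := by
    rw [Nat.div_lt_iff_lt_mul hp, mul_comm]; omega
  have h5 : c ≤ (t - 1) / 2 ^ r := by
    rw [Nat.le_div_iff_mul_le hp, mul_comm]; omega
  omega

theorem off_eq_of_modEq {r s t : ℕ} (hs : 0 < s) (ht : 0 < t) (h : s ≡ t [MOD 2 ^ r]) :
    off r s = off r t := by
  unfold off
  have h1 : (s - 1) + 1 ≡ (t - 1) + 1 [MOD 2 ^ r] := by
    have e1 : s - 1 + 1 = s := by omega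
    have e2 : t - 1 + 1 = t := by omega
    rw [e1, e2]; exact h
  exact Nat.ModEq.add_right_cancel' 1 h1

theorem modEq_off (r : ℕ) {s t : ℕ} (hs : 0 < s) (ht : 0 < t) (h : off r s = off r t) :
    s ≡ t [MOD 2 ^ r] := by
  unfold off at h
  have h1 : s - 1 ≡ t - 1 [MOD 2 ^ r] := h
  have h2 := h1.add_right 1
  have e1 : s - 1 + 1 = s := by omega
  have e2 : t - 1 + 1 = t := by omega
  rwa [e1, e2] at h2

/-- there is a multiple of `2 ^ r` in `[a, b)` -/
def Mk (r a b : ℕ) : Prop := ∃ z, a ≤ z ∧ z < b ∧ 2 ^ r ∣ z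

open Classical in
/-- refined references -/
noncomputable def wa (r h : ℕ) (X G : ℕ → Prop) (a i : ℕ → ℕ) (x : ℕ) : ℕ :=
  if X x then nt r h (i x) (a x) else if G x then 1 + i x * 2 ^ r + off r (a x) else a x

/-- paths: a potential that may only change at variables in `X`, where its values before and
after are prescribed -/
def Path (X : ℕ → Prop) (χm χp : ℕ → ℕ) (c c' : ℕ) (w : ℕ → ℕ) (m : ℕ) : Prop :=
  ∃ pot : ℕ → ℕ, pot 0 = c ∧ pot m = c' ∧ ∀ k < m,
    (X (w k) → pot k = χm (w k) ∧ pot (k + 1) = χp (w k)) ∧ (¬ X (w k) → pot (k + 1) = pot k)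

section W

variable {a b u : ℕ → ℕ} {m r h : ℕ}

theorem viewPos {T : ℕ → ℕ} (hab : ∀ x, 0 < a x ∧ a x < b x) (hT0 : 0 < T 0)
    (hT : ∀ k < m, T (k + 1) + a (u k) = T k + b (u k)) : ∀ k ≤ m, 0 < T k := by
  intro k
  induction k with
  | zero => intro _; exact hT0
  | succ k ih =>
    intro hk
    have h1 := hT k (by omega)
    have h2 := hab (u k)
    have h3 := ih (by omega)
    omega

/-- the position of a variable that contains a multiple of `2 ^ r` is known modulo `2 ^ (r+1)` -/
theorem viewMod {t a b : ℕ} (ht : 0 < t) (ha : 0 < a)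
    (hv : ∀ j, a + j < b → v2 (t + j) = v2 (a + j)) (hX : Mk r a b) :
    t ≡ a [MOD 2 ^ (r + 1)] := by
  obtain ⟨z, h1, h2, h3⟩ := hX
  obtain ⟨j, rfl⟩ := Nat.exists_eq_add_of_le h1
  have := modEq_of_v2 (by omega) (by omega) (hv j h2) h3
  exact Nat.ModEq.add_right_cancel' j this

theorem viewNo {t a b : ℕ} (ht : 0 < t) (ha : 0 < a)
    (hv : ∀ j, a + j < b → v2 (t + j) = v2 (a + j)) (hX : ¬ Mk r a b) :
    ∀ j, a + j < b → ¬ 2 ^ r ∣ t + j := by
  intro j hj h1
  apply hX
  refine ⟨a + j, by omega, hj, ?_⟩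
  rw [pow_dvd_iff_le_v2 (by omega)] at h1 ⊢
  rw [← hv j hj]; exact h1

theorem lemW (hab : ∀ x, 0 < a x ∧ a x < b x)
    (G : ℕ → Prop) (iM iP : ℕ → ℕ) (hi : ∀ x, iM x < 2 ^ h ∧ iP x < 2 ^ h)
    (hGlt : ∀ x, G x → iM x < iP x)
    (T : ℕ → ℕ) (hT0 : 0 < T 0)
    (hT : ∀ k < m, T (k + 1) + a (u k) = T k + b (u k) ∧
      ∀ j, a (u k) + j < b (u k) → v2 (T k + j) = v2 (a (u k) + j))
    (hGm : ∀ k < m, G (u k) → T k ≡ a (u k) [MOD 2 ^ r])
    (pot : ℕ → ℕ)
    (hpot : ∀ k < m, ((Mk r (a (u k)) (b (u k)) ∨ G (u k)) →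
        pot k = iM (u k) ∧ pot (k + 1) = iP (u k)) ∧
      (¬ (Mk r (a (u k)) (b (u k)) ∨ G (u k)) → pot (k + 1) = pot k)) :
    (∀ x, 0 < wa r h (fun x => Mk r (a x) (b x)) G a iM x ∧
      wa r h (fun x => Mk r (a x) (b x)) G a iM x < wa r h (fun x => Mk r (a x) (b x)) G b iP x) ∧
    (∀ x, Mk r (wa r h (fun x => Mk r (a x) (b x)) G a iM x)
      (wa r h (fun x => Mk r (a x) (b x)) G b iP x) ↔ (Mk r (a x) (b x) ∨ G x)) ∧
    VP (wa r h (fun x => Mk r (a x) (b x)) G a iM) (wa r h (fun x => Mk r (a x) (b x)) G b iP)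
      (nt r h (pot 0) (T 0)) (nt r h (pot m) (T m)) u m := by
  have h2r : 0 < 2 ^ r := by positivity
  have h2h : 0 < 2 ^ h := by positivity
  have hTpos : ∀ k ≤ m, 0 < T k := viewPos hab hT0 (fun k hk => (hT k hk).1)
  refine ⟨?_, ?_, ?_⟩
  · -- positivity
    intro x
    by_cases hX : Mk r (a x) (b x)
    · simp only [wa, hX, if_true]
      refine ⟨nt_pos _ _ _ _, ?_⟩
      obtain ⟨z, h1, h2, h3⟩ := hX
      have hc := cel_lt_of_mult (hab x).1 h1 h2 h3
      unfold nt
      have h4 := off_lt r (a x)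
      have h5 := (hi x).1
      have h6 : 2 ^ h * cel r (a x) + iM x + 1 ≤ 2 ^ h * cel r (b x) + iP x := by
        have : 2 ^ h * (cel r (a x) + 1) ≤ 2 ^ h * cel r (b x) := Nat.mul_le_mul_left _ hc
        rw [mul_add, mul_one] at this
        omega
      have h7 := Nat.mul_le_mul_right (2 ^ r) h6
      rw [add_mul _ 1, one_mul] at h7
      omega
    · by_cases hG : G x
      · simp only [wa, hX, hG, if_true, if_false]
        refine ⟨by omega, ?_⟩
        have h4 := off_lt r (a x)
        have h6 : iM x + 1 ≤ iP x := hGlt x hG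
        have h7 := Nat.mul_le_mul_right (2 ^ r) h6
        rw [add_mul _ 1, one_mul] at h7
        omega
      · simp only [wa, hX, hG, if_false]
        exact hab x
  · intro x
    by_cases hX : Mk r (a x) (b x)
    · simp only [wa, hX, if_true, true_or, iff_true]
      obtain ⟨z, h1, h2, h3⟩ := hX
      have hc := cel_lt_of_mult (hab x).1 h1 h2 h3
      have h4 := off_lt r (a x)
      have h5 := (hi x).1
      have h6 : 2 ^ h * cel r (a x) + iM x + 1 ≤ 2 ^ h * cel r (b x) + iP x := by
        have : 2 ^ h * (cel r (a x) + 1) ≤ 2 ^ h * cel r (b x) := Nat.mul_le_mul_left _ hc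
        rw [mul_add, mul_one] at this
        omega
      have h7 := Nat.mul_le_mul_right (2 ^ r) h6
      refine ⟨(2 ^ h * cel r (a x) + iM x + 1) * 2 ^ r, ?_, ?_, Dvd.intro_left _ rfl⟩
      · unfold nt
        rw [add_mul _ 1, one_mul]
        omega
      · unfold nt
        omega
    · by_cases hG : G x
      · simp only [wa, hX, hG, if_true, if_false, or_true, iff_true]
        have h4 := off_lt r (a x)
        have h6 : iM x + 1 ≤ iP x := hGlt x hG
        have h7 := Nat.mul_le_mul_right (2 ^ r) h6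
        refine ⟨(iM x + 1) * 2 ^ r, ?_, ?_, Dvd.intro_left _ rfl⟩
        · rw [add_mul _ 1, one_mul]
          omega
        · omega
      · simp only [wa, hX, hG, if_false, or_false]
  · refine ⟨fun k => nt r h (pot k) (T k), rfl, rfl, ?_⟩
    intro k hk
    obtain ⟨hstep, hval⟩ := hT k hk
    obtain ⟨hp1, hp2⟩ := hpot k hk
    have hTk := hTpos k hk.le
    have hTk1 := hTpos (k + 1) hk
    obtain ⟨ha0, hab0⟩ := hab (u k)
    have hb0 : 0 < b (u k) := by omega
    by_cases hX : Mk r (a (u k)) (b (u k))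
    · obtain ⟨e1, e2⟩ := hp1 (Or.inl hX)
      simp only [wa, hX, if_true]
      have hmod := viewMod hTk ha0 hval hX
      have hmod' : T k ≡ a (u k) [MOD 2 ^ r] := hmod.of_dvd (pow_dvd_pow 2 (Nat.le_succ r))
      have ho := off_eq_of_modEq hTk ha0 hmod'
      have hmod2 : T (k + 1) ≡ b (u k) [MOD 2 ^ r] := by
        have h1 : T (k + 1) + a (u k) ≡ b (u k) + a (u k) [MOD 2 ^ r] := by
          rw [hstep, add_comm (b (u k))]
          exact hmod'.add_right _
        exact Nat.ModEq.add_right_cancel' _ h1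
      have ho2 := off_eq_of_modEq hTk1 hb0 hmod2
      have c1 := cel_off r hTk
      have c2 := cel_off r hTk1
      have c3 := cel_off r ha0
      have c4 := cel_off r hb0
      have hcel : cel r (T (k + 1)) + cel r (a (u k)) = cel r (T k) + cel r (b (u k)) := by
        have h1 : (cel r (T (k + 1)) + cel r (a (u k))) * 2 ^ r =
            (cel r (T k) + cel r (b (u k))) * 2 ^ r := by
          rw [add_mul, add_mul]; omega
        exact Nat.eq_of_mul_eq_mul_right h2r h1
      constructor
      · unfold nt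
        rw [e1, e2, ho, ho2]
        have h1 : (2 ^ h * cel r (T (k + 1)) + iP (u k)) + (2 ^ h * cel r (a (u k)) + iM (u k)) =
          (2 ^ h * cel r (T k) + iM (u k)) + (2 ^ h * cel r (b (u k)) + iP (u k)) := by
          have : 2 ^ h * (cel r (T (k + 1)) + cel r (a (u k))) =
            2 ^ h * (cel r (T k) + cel r (b (u k))) := by rw [hcel]
          rw [mul_add, mul_add] at this
          omega
        have h2 := congrArg (· * 2 ^ r) h1
        simp only [add_mul _ _ (2 ^ r)] at h2
        simp only [add_mul _ _ (2 ^ r)]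
        omega
      · intro j hj
        rw [e1]
        unfold nt at hj ⊢
        rw [ho]
        set y := off r (a (u k)) with hy
        have hdv : ∀ c, 2 ^ (h + r) ∣ 2 ^ h * c * 2 ^ r := by
          intro c
          rw [pow_add]
          exact ⟨c, by ring⟩
        set z := 1 + y + j + iM (u k) * 2 ^ r with hz
        have g1 : 1 + (2 ^ h * cel r (T k) + iM (u k)) * 2 ^ r + y + j =
          2 ^ h * cel r (T k) * 2 ^ r + z := by rw [hz, add_mul]; ring
        have g2 : 1 + (2 ^ h * cel r (a (u k)) + iM (u k)) * 2 ^ r + y + j =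
          2 ^ h * cel r (a (u k)) * 2 ^ r + z := by rw [hz, add_mul]; ring
        by_cases hzd : 2 ^ (h + r) ∣ z
        · obtain ⟨m', hm'⟩ := hzd
          have hzpos : 0 < z := by omega
          have hm'pos : 0 < m' := by
            rcases Nat.eq_zero_or_pos m' with h0 | h0
            · rw [h0, mul_zero] at hm'; omega
            · exact h0
          have g3 : ∀ c, 2 ^ h * c * 2 ^ r + z = 2 ^ h * ((c + m') * 2 ^ r) := by
            intro c; rw [hm', pow_add]; ring
          have g4 : ∀ n, 0 < n → v2 (2 ^ h * n) = h + v2 n := by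
            intro n hn
            unfold v2
            rw [padicValNat.mul (by positivity) (by omega), padicValNat.prime_pow]
          have hpos1 : ∀ c, 0 < (c + m') * 2 ^ r := by intro c; positivity
          rw [g1, g2, g3, g3, g4 _ (hpos1 _), g4 _ (hpos1 _)]
          -- old positions
          have hm1 : 2 ^ r ≤ m' * 2 ^ r := Nat.le_mul_of_pos_left _ hm'pos
          have hyl : y < 2 ^ r := off_lt r (a (u k))
          have hold := hval (m' * 2 ^ r - 1 - y) (by
            -- a + j' < b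
            have g5 : 2 ^ h * ((cel r (a (u k)) + m') * 2 ^ r) <
              2 ^ h * ((cel r (b (u k)) + 1) * 2 ^ r) := by
              rw [← g3, ← g2]
              have g6 := off_lt r (b (u k))
              have g7 := (hi (u k)).2
              have g8 : iP (u k) * 2 ^ r + 2 ^ r ≤ 2 ^ h * 2 ^ r := by
                have := Nat.mul_le_mul_right (2 ^ r) (Nat.succ_le_of_lt g7)
                rw [Nat.succ_mul] at this
                exact this
              have g9 : 2 ^ h * ((cel r (b (u k)) + 1) * 2 ^ r) =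
                2 ^ h * cel r (b (u k)) * 2 ^ r + 2 ^ h * 2 ^ r := by ring
              rw [g9]
              rw [add_mul (2 ^ h * cel r (b (u k)))] at hj
              omega
            have g10 : (cel r (a (u k)) + m') * 2 ^ r < (cel r (b (u k)) + 1) * 2 ^ r :=
              lt_of_mul_lt_mul_left g5 (Nat.zero_le _)
            have g11 : cel r (a (u k)) + m' < cel r (b (u k)) + 1 :=
              lt_of_mul_lt_mul_right g10 (Nat.zero_le _)
            have g12 : (cel r (a (u k)) + m') * 2 ^ r ≤ cel r (b (u k)) * 2 ^ r :=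
              Nat.mul_le_mul_right _ (by omega)
            rw [add_mul] at g12
            omega)
          have p1 : T k + (m' * 2 ^ r - 1 - y) = (cel r (T k) + m') * 2 ^ r := by
            rw [add_mul]; omega
          have p2 : a (u k) + (m' * 2 ^ r - 1 - y) = (cel r (a (u k)) + m') * 2 ^ r := by
            rw [add_mul]; omega
          rw [p1, p2] at hold
          rw [hold]
        · rw [g1, g2]
          apply v2_congr (M := h + r)
          · apply Nat.ModEq.add_right
            exact (Nat.modEq_zero_iff_dvd.2 (hdv _)).trans (Nat.modEq_zero_iff_dvd.2 (hdv _)).symm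
          · intro h1
            exact hzd ((Nat.dvd_add_right (hdv _)).1 h1)
    · have hno := viewNo hTk ha0 hval hX
      have hcel : cel r (T (k + 1)) = cel r (T k) := by
        apply cel_eq_of_no_mult hTk (by omega)
        intro z h1 h2
        obtain ⟨j, rfl⟩ := Nat.exists_eq_add_of_le h1
        exact hno j (by omega)
      have hcelab : cel r (b (u k)) = cel r (a (u k)) := by
        apply cel_eq_of_no_mult ha0 (by omega)
        intro z h1 h2 h3
        exact hX ⟨z, h1, h2, h3⟩
      have c1 := cel_off r hTk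
      have c2 := cel_off r hTk1
      have c3 := cel_off r ha0
      have c4 := cel_off r hb0
      by_cases hG : G (u k)
      · obtain ⟨e1, e2⟩ := hp1 (Or.inr hG)
        simp only [wa, hX, hG, if_true, if_false]
        have ho := off_eq_of_modEq hTk ha0 (hGm k hk hG)
        rw [hcel] at c2
        rw [hcelab] at c4
        constructor
        · unfold nt
          rw [e1, e2, hcel]
          simp only [add_mul _ _ (2 ^ r)]
          omega
        · intro j hj
          rw [e1]
          unfold nt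
          rw [ho]
          set y := off r (a (u k)) with hy
          have hdv : ∀ c, 2 ^ (h + r) ∣ 2 ^ h * c * 2 ^ r := by
            intro c
            rw [pow_add]
            exact ⟨c, by ring⟩
          set z := 1 + iM (u k) * 2 ^ r + y + j with hz
          have g1 : 1 + (2 ^ h * cel r (T k) + iM (u k)) * 2 ^ r + y + j =
            2 ^ h * cel r (T k) * 2 ^ r + z := by rw [hz, add_mul]; ring
          rw [g1]
          have hzlt : z < 2 ^ (h + r) := by
            have g6 := off_lt r (b (u k))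
            have g7 := (hi (u k)).2
            have g8 : iP (u k) * 2 ^ r + 2 ^ r ≤ 2 ^ h * 2 ^ r := by
              have := Nat.mul_le_mul_right (2 ^ r) (Nat.succ_le_of_lt g7)
              rw [Nat.succ_mul] at this
              exact this
            rw [pow_add]
            omega
          have hzpos : 0 < z := by omega
          have hnd : ¬ 2 ^ (h + r) ∣ z := Nat.not_dvd_of_pos_of_lt hzpos hzlt
          apply v2_congr (M := h + r) _ hnd
          have := (Nat.modEq_zero_iff_dvd.2 (hdv (cel r (T k)))).add_right z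
          simpa using this
      · have e3 := hp2 (by tauto)
        simp only [wa, hX, hG, if_false]
        rw [hcel] at c2
        constructor
        · unfold nt
          rw [e3, hcel]
          omega
        · intro j hj
          rw [← hval j hj]
          apply v2_congr (M := r) _ (hno j hj)
          apply Nat.ModEq.add_right
          apply modEq_off r (nt_pos _ _ _ _) hTk
          exact off_nt _ _ _ _

end W

/-- the transfer of views from `u` to `v` -/
def HCond (u v : ℕ → ℕ) (m : ℕ) : Prop :=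
  ∀ (a b : ℕ → ℕ) (τ τe : ℕ), 0 < τ → (∀ x, 0 < a x ∧ a x < b x) →
      VP a b τ τe u m → VP a b τ τe v m

section V

variable {u v : ℕ → ℕ} {m : ℕ}

theorem lemV0 (HC : HCond u v m) {a b : ℕ → ℕ} (hab : ∀ x, 0 < a x ∧ a x < b x) {τ τe : ℕ}
    (hτ : 0 < τ) (hV : VP a b τ τe u m) (r : ℕ) (iM iP : ℕ → ℕ) (hi : ∀ x, iM x < 2 ∧ iP x < 2)
    (c c' : ℕ) (hc : c < 2) (hc' : c' < 2)
    (hpath : Path (fun x => Mk r (a x) (b x)) iM iP c c' u m) :
    Path (fun x => Mk r (a x) (b x)) iM iP c c' v m := by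
  obtain ⟨T, hT0, hTm, hT⟩ := hV
  obtain ⟨pot, hp0, hpm, hpot⟩ := hpath
  subst hT0 hTm
  have hW := lemW (h := 1) (r := r) hab (fun _ => False) iM iP (by simpa using hi)
    (fun x hx => hx.elim) T hτ hT (fun k _ hx => hx.elim) pot
    (by simpa using hpot)
  obtain ⟨hab', hMk, hVP⟩ := hW
  set a' := wa r 1 (fun x => Mk r (a x) (b x)) (fun _ => False) a iM with ha'
  set b' := wa r 1 (fun x => Mk r (a x) (b x)) (fun _ => False) b iP with hb'
  have hV' := HC a' b' _ _ (nt_pos _ _ _ _) hab' hVP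
  obtain ⟨T', hT0', hTm', hT'⟩ := hV'
  have hT0pos : 0 < T' 0 := by rw [hT0']; exact nt_pos _ _ _ _
  have hTpos : ∀ k ≤ m, 0 < T' k := viewPos hab' hT0pos (fun k hk => (hT' k hk).1)
  -- parity of the cell
  have hpar : ∀ s t : ℕ, 0 < s → 0 < t → s ≡ t [MOD 2 ^ (r + 1)] → cel r s % 2 = cel r t % 2 := by
    intro s t hs ht hst
    have h1 : s - 1 ≡ t - 1 [MOD 2 ^ (r + 1)] := by
      apply Nat.ModEq.add_right_cancel' 1
      have e1 : s - 1 + 1 = s := by omega
      have e2 : t - 1 + 1 = t := by omega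
      rw [e1, e2]; exact hst
    unfold cel
    have h2 : ∀ x, x / 2 ^ r % 2 = x % 2 ^ (r + 1) / 2 ^ r := by
      intro x
      rw [pow_succ, Nat.mod_mul_right_div_self]
    rw [h2, h2, h1]
  refine ⟨fun k => cel r (T' k) % 2, ?_, ?_, ?_⟩
  · show cel r (T' 0) % 2 = c
    rw [hT0', cel_nt, hp0]; omega
  · show cel r (T' m) % 2 = c'
    rw [hTm', cel_nt, hpm]; omega
  · intro k hk
    obtain ⟨hstep, hval⟩ := hT' k hk
    have hTk := hTpos k hk.le
    have hTk1 := hTpos (k + 1) hk
    obtain ⟨ha0, hab0⟩ := hab' (v k)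
    constructor
    · intro hX
      have hX' : Mk r (a' (v k)) (b' (v k)) := (hMk (v k)).2 (Or.inl hX)
      have hmod := viewMod hTk ha0 hval hX'
      have hmod2 : T' (k + 1) ≡ b' (v k) [MOD 2 ^ (r + 1)] := by
        have h1 : T' (k + 1) + a' (v k) ≡ b' (v k) + a' (v k) [MOD 2 ^ (r + 1)] := by
          rw [hstep, add_comm (b' (v k))]
          exact hmod.add_right _
        exact Nat.ModEq.add_right_cancel' _ h1
      have ea : a' (v k) = nt r 1 (iM (v k)) (a (v k)) := by
        rw [ha']; simp only [wa, hX, if_true]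
      have eb : b' (v k) = nt r 1 (iP (v k)) (b (v k)) := by
        rw [hb']; simp only [wa, hX, if_true]
      have := hi (v k)
      constructor
      · show cel r (T' k) % 2 = _
        rw [hpar _ _ hTk ha0 hmod, ea, cel_nt]; omega
      · show cel r (T' (k + 1)) % 2 = _
        rw [hpar _ _ hTk1 (by omega) hmod2, eb, cel_nt]; omega
    · intro hX
      have hX' : ¬ Mk r (a' (v k)) (b' (v k)) := by
        rw [hMk]; simpa using hX
      have hno := viewNo hTk ha0 hval hX'
      have hcel : cel r (T' (k + 1)) = cel r (T' k) := by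
        apply cel_eq_of_no_mult hTk (by omega)
        intro z h1 h2
        obtain ⟨j, rfl⟩ := Nat.exists_eq_add_of_le h1
        exact hno j (by omega)
      show cel r (T' (k + 1)) % 2 = cel r (T' k) % 2
      rw [hcel]

open Classical in
theorem lemV (HC : HCond u v m) {a b : ℕ → ℕ} (hab : ∀ x, 0 < a x ∧ a x < b x) {τ τe : ℕ}
    (hτ : 0 < τ) (hV : VP a b τ τe u m) (r : ℕ) (χm χp : ℕ → ℕ) (c c' : ℕ)
    (hpath : Path (fun x => Mk r (a x) (b x)) χm χp c c' u m) :
    Path (fun x => Mk r (a x) (b x)) χm χp c c' v m := by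
  -- the path on v
  obtain ⟨pv, hpv0, hpvs⟩ : ∃ pv : ℕ → ℕ, pv 0 = c ∧
      ∀ k, pv (k + 1) = if Mk r (a (v k)) (b (v k)) then χp (v k) else pv k :=
    ⟨fun k => Nat.rec c (fun k p => if Mk r (a (v k)) (b (v k)) then χp (v k) else p) k,
      rfl, fun k => rfl⟩
  have key : ∀ t : ℕ, Path (fun x => Mk r (a x) (b x)) (fun x => if χm x = t then 1 else 0)
      (fun x => if χp x = t then 1 else 0) (if c = t then 1 else 0) (if c' = t then 1 else 0)
      v m := by
    intro t
    apply lemV0 HC hab hτ hV r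
    · intro x; constructor <;> split_ifs <;> omega
    · split_ifs <;> omega
    · split_ifs <;> omega
    · obtain ⟨pot, h0, h1, h2⟩ := hpath
      refine ⟨fun k => if pot k = t then 1 else 0, by simp [h0], by simp [h1], ?_⟩
      intro k hk
      obtain ⟨h3, h4⟩ := h2 k hk
      constructor
      · intro hX
        obtain ⟨h5, h6⟩ := h3 hX
        simp only [h5, h6, and_self]
      · intro hX
        simp only [h4 hX]
  -- comparison
  have comp : ∀ t : ℕ, ∀ pot : ℕ → ℕ, pot 0 = (if c = t then 1 else 0) → (∀ k < m,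
      (Mk r (a (v k)) (b (v k)) → pot k = (if χm (v k) = t then 1 else 0) ∧
        pot (k + 1) = (if χp (v k) = t then 1 else 0)) ∧
      (¬ Mk r (a (v k)) (b (v k)) → pot (k + 1) = pot k)) →
      ∀ k ≤ m, pot k = (if pv k = t then 1 else 0 : ℕ) := by
    intro t pot h0 hk k
    induction k with
    | zero => intro _; rw [h0, hpv0]
    | succ k ih =>
      intro hkm
      obtain ⟨h1, h2⟩ := hk k (by omega)
      rw [hpvs]
      by_cases hX : Mk r (a (v k)) (b (v k))
      · rw [if_pos hX]; exact (h1 hX).2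
      · rw [if_neg hX, h2 hX]; exact ih (by omega)
  refine ⟨pv, hpv0, ?_, ?_⟩
  · obtain ⟨pot, h0, h1, h2⟩ := key c'
    have h3 := comp c' pot h0 h2 m le_rfl
    rw [h1, if_pos rfl] at h3
    by_contra hne
    rw [if_neg hne] at h3
    exact absurd h3 (by norm_num)
  · intro k hk
    constructor
    · intro hX
      refine ⟨?_, by rw [hpvs, if_pos hX]⟩
      obtain ⟨pot, h0, h1, h2⟩ := key (χm (v k))
      have h3 := comp _ pot h0 h2 k hk.le
      have h4 := ((h2 k hk).1 hX).1
      simp only [if_true] at h4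
      rw [h4] at h3
      by_contra hne
      rw [if_neg hne] at h3
      exact absurd h3 (by norm_num)
    · intro hX
      rw [hpvs, if_neg hX]

theorem Path.congr {X X' : ℕ → Prop} (h : ∀ x, X x ↔ X' x) {χm χp : ℕ → ℕ} {c c' : ℕ}
    {w : ℕ → ℕ} {m : ℕ} (hp : Path X χm χp c c' w m) : Path X' χm χp c c' w m := by
  have : X = X' := funext fun x => propext (h x)
  rwa [this] at hp

/-- the main transfer lemma -/
theorem lemVG (HC : HCond u v m) {a b : ℕ → ℕ} (hab : ∀ x, 0 < a x ∧ a x < b x) (r h : ℕ)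
    (G : ℕ → Prop) (iM iP : ℕ → ℕ) (hi : ∀ x, iM x < 2 ^ h ∧ iP x < 2 ^ h)
    (hGlt : ∀ x, G x → iM x < iP x)
    (T : ℕ → ℕ) (hT0 : 0 < T 0)
    (hT : ∀ k < m, T (k + 1) + a (u k) = T k + b (u k) ∧
      ∀ j, a (u k) + j < b (u k) → v2 (T k + j) = v2 (a (u k) + j))
    (hGm : ∀ k < m, G (u k) → T k ≡ a (u k) [MOD 2 ^ r])
    (i0 i1 : ℕ) (hpot : Path (fun x => Mk r (a x) (b x) ∨ G x) iM iP i0 i1 u m)
    (χm χp : ℕ → ℕ) (c c' : ℕ)
    (hpath : Path (fun x => Mk r (a x) (b x) ∨ G x) χm χp c c' u m) :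
    Path (fun x => Mk r (a x) (b x) ∨ G x) χm χp c c' v m := by
  obtain ⟨pot, hp0, hpm, hpot⟩ := hpot
  obtain ⟨hab', hMk, hVP⟩ := lemW (h := h) (r := r) hab G iM iP hi hGlt T hT0 hT hGm pot hpot
  have h1 := lemV HC hab' (nt_pos _ _ _ _) hVP r χm χp c c'
    (Path.congr (fun x => (hMk x).symm) hpath)
  exact Path.congr hMk h1

end V

end Pool.Agent.Helper68.SG
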