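import Pool.Agent.Helper68.SG.Ctx

/-! Part B: small facts for the induction step. -/

set_option autoImplicit false

namespace Pool.Agent.Helper68.SG

/-! ### near -/

theorem Near.mono {P D D' z β : ℕ} (h : Near P D z β) (hD : D ≤ D') : Near P D' z β := by
  obtain ⟨d, hd, h⟩ := h
  exact ⟨d, lt_of_lt_of_le hd hD, h⟩

theorem Near.of_dvd {P P' D z β : ℕ} (hP : P ∣ P') (h : Near P' D z β) : Near P D z β := by
  obtain ⟨d, hd, h⟩ := h
  exact ⟨d, hd, h.imp (fun h => h.of_dvd hP) (fun h => h.of_dvd hP)⟩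

theorem Near.congr {P D z z' β : ℕ} (hz : z ≡ z' [MOD P]) (h : Near P D z β) : Near P D z' β := by
  obtain ⟨d, hd, h⟩ := h
  exact ⟨d, hd, h.imp (fun h => (hz.symm.add_right d).trans h) (fun h => hz.symm.trans h)⟩

theorem Near.of_add {P D z t β : ℕ} (h : Near P D (z + t) β) : Near P (D + t) z β := by
  obtain ⟨d, hd, h | h⟩ := h
  · refine ⟨t + d, by omega, Or.inl ?_⟩
    rw [← add_assoc]; exact h
  · rcases le_total t d with htd | htd
    · refine ⟨d - t, by omega, Or.inr ?_⟩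
      apply Nat.ModEq.add_right_cancel' t
      have : β + (d - t) + t = β + d := by omega
      rw [this]; exact h
    · rcases Nat.eq_or_lt_of_le htd with h0 | h0
      · refine ⟨0, by omega, Or.inl ?_⟩
        subst h0
        exact Nat.ModEq.add_right_cancel' d h
      · refine ⟨t - d, by omega, Or.inl ?_⟩
        apply Nat.ModEq.add_right_cancel' d
        have : z + (t - d) + d = z + t := by omega
        rw [this]; exact h

theorem Near.add {P D z t β : ℕ} (h : Near P D z β) : Near P (D + t) (z + t) β := by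
  obtain ⟨d, hd, h | h⟩ := h
  · rcases le_total t d with htd | htd
    · refine ⟨d - t, by omega, Or.inl ?_⟩
      have : z + t + (d - t) = z + d := by omega
      rw [this]; exact h
    · refine ⟨t - d, by omega, Or.inr ?_⟩
      have : z + t = z + d + (t - d) := by omega
      rw [this]; exact h.add_right _
  · refine ⟨d + t, by omega, Or.inr ?_⟩
    have := h.add_right t
    rwa [add_assoc] at this

/-! ### intervals -/

open Classical in
/-- number of elements of `[a, b)` with property `Q` -/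
noncomputable def cI (Q : ℕ → Prop) (a b : ℕ) : ℕ := ((Finset.Ico a b).filter Q).card

theorem cI_add {Q : ℕ → Prop} {a b c : ℕ} (h1 : a ≤ b) (h2 : b ≤ c) :
    cI Q a c = cI Q a b + cI Q b c := by
  classical
  unfold cI
  rw [← Finset.Ico_union_Ico_eq_Ico h1 h2, Finset.filter_union,
    Finset.card_union_of_disjoint]
  exact Finset.disjoint_filter_filter (Finset.Ico_disjoint_Ico_consecutive a b c)

theorem cI_self (Q : ℕ → Prop) (a : ℕ) : cI Q a a = 0 := by simp [cI]

theorem cI_range (Q : ℕ → Prop) (a L : ℕ) [DecidablePred fun t => Q (a + t)] :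
    cI Q a (a + L) = ((Finset.range L).filter (fun t => Q (a + t))).card := by
  classical
  unfold cI
  rw [← Finset.card_image_of_injective ((Finset.range L).filter (fun t => Q (a + t)))
    (add_right_injective a)]
  congr 1
  ext z
  simp only [Finset.mem_filter, Finset.mem_Ico, Finset.mem_image, Finset.mem_range]
  constructor
  · rintro ⟨⟨h1, h2⟩, h3⟩
    obtain ⟨t, rfl⟩ := Nat.exists_eq_add_of_le h1
    exact ⟨t, ⟨by omega, h3⟩, rfl⟩
  · rintro ⟨t, ⟨h1, h2⟩, rfl⟩
    exact ⟨⟨by omega, by omega⟩, h2⟩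

theorem cI_shift {Q Q' : ℕ → Prop} {a b L : ℕ} (h : ∀ t < L, (Q (a + t) ↔ Q' (b + t))) :
    cI Q a (a + L) = cI Q' b (b + L) := by
  classical
  rw [cI_range, cI_range]
  congr 1
  ext t
  simp only [Finset.mem_filter, Finset.mem_range]
  constructor
  · rintro ⟨h1, h2⟩; exact ⟨h1, (h t h1).1 h2⟩
  · rintro ⟨h1, h2⟩; exact ⟨h1, (h t h1).2 h2⟩

theorem cI_eq_zero {Q : ℕ → Prop} {a b : ℕ} (h : ∀ z, a ≤ z → z < b → ¬ Q z) : cI Q a b = 0 := by
  classical
  unfold cI
  rw [Finset.card_eq_zero, Finset.filter_eq_empty_iff]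
  intro z hz
  rw [Finset.mem_Ico] at hz
  exact h z hz.1 hz.2

theorem cI_eq_one {Q : ℕ → Prop} {a b c : ℕ} (hac : a ≤ c) (hcb : c < b) (hc : Q c)
    (h : ∀ z, a ≤ z → z < b → Q z → z = c) : cI Q a b = 1 := by
  classical
  unfold cI
  rw [Finset.card_eq_one]
  refine ⟨c, ?_⟩
  ext z
  simp only [Finset.mem_filter, Finset.mem_Ico, Finset.mem_singleton]
  constructor
  · rintro ⟨⟨h1, h2⟩, h3⟩; exact h z h1 h2 h3
  · rintro rfl; exact ⟨⟨hac, hcb⟩, hc⟩

theorem cnt_eq (p : Par) (tau : ℕ → ℕ → ℕ → ℕ) (i s t : ℕ) {z z' : ℕ} (h : z ≤ z') :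
    cnt p tau i s t z' = cnt p tau i s t z + cI (fun b => p.len i ∣ b ∧ tau i s b = t) z z' := by
  have h0 : ∀ y, cnt p tau i s t y = cI (fun b => p.len i ∣ b ∧ tau i s b = t) 0 y := by
    intro y
    unfold cnt cI
    congr 1
    ext b
    simp
  rw [h0, h0, cI_add (Nat.zero_le z) h]

/-! ### layouts -/

section layout

variable {T nn w : ℕ → ℕ} {m : ℕ}

theorem T_mono (hT : ∀ k < m, T (k + 1) = T k + nn (w k)) {a b : ℕ} (hab : a ≤ b) (hb : b ≤ m) :
    T a ≤ T b := by
  induction b with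
  | zero =>
    have : a = 0 := by omega
    rw [this]
  | succ b ih =>
    rcases Nat.lt_or_ge a (b + 1) with h | h
    · have h1 := hT b (by omega)
      have h2 := ih (by omega) (by omega)
      omega
    · have : a = b + 1 := by omega
      rw [this]

theorem T_idx (hT : ∀ k < m, T (k + 1) = T k + nn (w k)) {z : ℕ} (h0 : T 0 ≤ z) (hz : z < T m) :
    ∃ k < m, ∃ j < nn (w k), z = T k + j := by
  induction m with
  | zero => omega
  | succ m ih =>
    rcases Nat.lt_or_ge z (T m) with h | h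
    · obtain ⟨k, hk, h1⟩ := ih (fun k hk => hT k (by omega)) h
      exact ⟨k, by omega, h1⟩
    · have h1 := hT m (by omega)
      exact ⟨m, by omega, z - T m, by omega, by omega⟩

theorem T_unique (hT : ∀ k < m, T (k + 1) = T k + nn (w k)) {z k k' : ℕ} (hk : k < m)
    (hk' : k' < m) (h1 : T k ≤ z) (h2 : z < T (k + 1)) (h3 : T k' ≤ z) (h4 : z < T (k' + 1)) :
    k = k' := by
  rcases lt_trichotomy k k' with h | h | h
  · have := T_mono hT (a := k + 1) (b := k') h hk'.le
    omega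
  · exact h
  · have := T_mono hT (a := k' + 1) (b := k) h hk.le
    omega

/-- the source map -/
theorem exists_src (hT : ∀ k < m, T (k + 1) = T k + nn (w k)) (s : ℕ → ℕ) :
    ∃ σ : ℕ → ℕ, ∀ k < m, ∀ j < nn (w k), σ (T k + j) = s (w k) + j := by
  have : ∀ z, ∃ y, ∀ k < m, ∀ j < nn (w k), z = T k + j → y = s (w k) + j := by
    intro z
    by_cases h : ∃ k < m, ∃ j < nn (w k), z = T k + j
    · obtain ⟨k, hk, j, hj, rfl⟩ := h
      refine ⟨s (w k) + j, ?_⟩
      intro k' hk' j' hj' he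
      have h1 := hT k hk
      have h2 := hT k' hk'
      have : k = k' := T_unique hT (z := T k + j) hk hk' (by omega) (by omega) (by omega) (by omega)
      subst this
      omega
    · refine ⟨0, ?_⟩
      intro k hk j hj he
      exact absurd ⟨k, hk, j, hj, he⟩ h
  choose σ hσ using this
  exact ⟨σ, fun k hk j hj => hσ _ k hk j hj rfl⟩

theorem cI_src {σ s : ℕ → ℕ} {Q : ℕ → Prop} (hT : ∀ k < m, T (k + 1) = T k + nn (w k))
    (hσ : ∀ k < m, ∀ j < nn (w k), σ (T k + j) = s (w k) + j) :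
    ∀ k ≤ m, cI (fun z => Q (σ z)) (T 0) (T k) =
      ∑ k' ∈ Finset.range k, cI Q (s (w k')) (s (w k') + nn (w k')) := by
  intro k
  induction k with
  | zero => intro _; simp [cI_self]
  | succ k ih =>
    intro hk
    rw [Finset.sum_range_succ, ← ih (by omega)]
    rw [cI_add (T_mono hT (Nat.zero_le k) (by omega)) (T_mono hT (Nat.le_succ k) hk)]
    congr 1
    rw [hT k (by omega)]
    apply cI_shift
    intro t ht
    rw [hσ k (by omega) t ht]

end layout

/-! ### numbers -/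

section numbers

variable {p : Par}

theorem len_pos (hp : p.Ok) (i : ℕ) : 0 < p.len i := by
  have h1 := hp.n_pos
  have h2 := hp.r_ge
  unfold Par.len
  have : 0 < p.r := by omega
  positivity

theorem wid_pos (hp : p.Ok) (i : ℕ) : 0 < p.wid i := by
  have := len_pos hp i
  unfold Par.wid
  unfold Par.len at this
  split_ifs <;> omega

theorem wid_le (p : Par) (i : ℕ) : p.wid i ≤ 2 * p.len i := by
  unfold Par.wid Par.len
  split_ifs with h
  · subst h; simp
  · exact le_rfl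

theorem len_le_wid (p : Par) (i : ℕ) : p.len i ≤ p.wid i := by
  unfold Par.wid Par.len
  split_ifs with h
  · subst h; simp
  · omega

theorem len_succ (p : Par) (i : ℕ) : p.len (i + 1) = p.r * p.len i := by
  unfold Par.len; rw [pow_succ, mul_comm]

theorem len_succ_ge (hp : p.Ok) (i : ℕ) : 16 * p.len i ≤ p.len (i + 1) := by
  have h1 := hp.n_pos
  have h2 := hp.r_ge
  rw [len_succ]
  exact Nat.mul_le_mul_right _ (by omega)

theorem Lam_succ (p : Par) (i : ℕ) : Lam p (i + 1) = 16 * p.n * p.len (i + 1) := by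
  unfold Lam Par.len; simp

theorem Dd_succ (p : Par) (i : ℕ) : Dd p (i + 1) = (p.n + 1) * Lam p (i + 1) := by
  unfold Dd; simp

theorem nu_ge' (hp : p.Ok) (i : ℕ) : 32 * p.n ^ 2 * p.len (i + 1) ≤ p.nu i := hp.nu_ge i

theorem Dd_succ_le (hp : p.Ok) (i : ℕ) : Dd p (i + 1) ≤ p.nu i := by
  refine le_trans ?_ (nu_ge' hp i)
  rw [Dd_succ, Lam_succ]
  have h1 := hp.n_pos
  have h2 : (p.n + 1) * (16 * p.n) ≤ 32 * p.n ^ 2 := by nlinarith
  calc (p.n + 1) * (16 * p.n * p.len (i + 1)) = ((p.n + 1) * (16 * p.n)) * p.len (i + 1) := by ring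
    _ ≤ _ := Nat.mul_le_mul_right _ h2

theorem Lam_succ_le_Dd (hp : p.Ok) (i : ℕ) : Lam p (i + 1) ≤ Dd p (i + 1) := by
  rw [Dd_succ]
  have h1 := hp.n_pos
  exact Nat.le_mul_of_pos_left _ (by omega)

theorem n_Lam_succ_le_Dd (i : ℕ) : p.n * Lam p (i + 1) + Lam p (i + 1) = Dd p (i + 1) := by
  rw [Dd_succ]; ring

theorem len_succ_le_nu (hp : p.Ok) (i : ℕ) : p.len (i + 1) ≤ p.nu i := by
  refine le_trans ?_ (nu_ge' hp i)
  have h1 := hp.n_pos
  exact Nat.le_mul_of_pos_left _ (by positivity)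

theorem wid_le_len_succ (hp : p.Ok) (i : ℕ) : p.wid i ≤ p.len (i + 1) := by
  have := wid_le p i
  have := len_succ_ge hp i
  omega

theorem wid_le_Lam (hp : p.Ok) (i : ℕ) : p.wid i ≤ Lam p i := by
  have h1 := hp.n_pos
  unfold Par.wid Lam
  split_ifs
  · exact le_rfl
  · exact Nat.mul_le_mul_right _ (by omega)

theorem Lam_mono (hp : p.Ok) (i : ℕ) : Lam p i ≤ Lam p (i + 1) := by
  have h1 := hp.n_pos
  have h2 := hp.r_ge
  unfold Lam
  rw [if_neg (Nat.succ_ne_zero i)]
  split_ifs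
  · have : 0 < p.r := by omega
    exact Nat.succ_le_of_lt (by positivity)
  · apply Nat.mul_le_mul_left
    exact Nat.pow_le_pow_right (by omega) (Nat.le_succ i)

theorem e_mono (hp : p.Ok) (i : ℕ) : p.e i ≤ p.e (i + 1) := by
  have h1 := hp.n_pos
  have h2 := hp.P_succ i
  unfold Par.P at h2
  by_contra h3
  push Not at h3
  have h4 : 2 ^ p.e (i + 1) < 2 ^ p.e i := Nat.pow_lt_pow_right (by norm_num) h3
  have h5 : 2 ^ p.e i ≤ 4 * p.n * 2 ^ p.e i := Nat.le_mul_of_pos_left _ (by omega)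
  omega

theorem P_dvd (hp : p.Ok) (i : ℕ) : p.P i ∣ p.P (i + 1) := pow_dvd_pow 2 (e_mono hp i)

theorem P_pos (p : Par) (i : ℕ) : 0 < p.P i := by unfold Par.P; positivity

theorem len_dvd_P (hp : p.Ok) (i : ℕ) : p.len i ∣ p.P i := (hp.len_dvd_nu i).trans (hp.nu_dvd i)

theorem n_Lam_le_Rm (hp : p.Ok) (i : ℕ) (hi : i ≠ 0) : p.n * Lam p i ≤ Rm p i := by
  obtain ⟨i, rfl⟩ := Nat.exists_eq_succ_of_ne_zero hi
  have h1 := hp.n_pos
  have h3 := nu_ge' hp (i + 1)
  have h4 := len_succ_ge hp (i + 1)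
  rw [Nat.succ_eq_add_one, Lam_succ]
  unfold Rm
  have h5 : p.n * (16 * p.n * p.len (i + 1)) ≤ 32 * p.n ^ 2 * p.len (i + 1 + 1) := by
    calc p.n * (16 * p.n * p.len (i + 1)) = 16 * p.n ^ 2 * p.len (i + 1) := by ring
      _ ≤ 32 * p.n ^ 2 * p.len (i + 1 + 1) := by
        apply Nat.mul_le_mul
        · apply Nat.mul_le_mul_right; norm_num
        · omega
  omega

theorem Lam_succ_le_nu (hp : p.Ok) (i : ℕ) : Lam p (i + 1) ≤ p.nu i :=
  (Lam_succ_le_Dd hp i).trans (Dd_succ_le hp i)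

theorem small_hD (hp : p.Ok) (i : ℕ) {nn : ℕ → ℕ} (hnn : ∀ x, 1 ≤ nn x) {x : ℕ}
    (hx : nn x < Lam p i) : i ≠ 0 := by
  rintro rfl
  have := hnn x
  unfold Lam at hx
  simp at hx
  omega

end numbers

end Pool.Agent.Helper68.SG
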