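import Pool.Agent.Helper68.SG.B7a
import Pool.Agent.Helper31.SG.B56

/-! Part B: margins in the context, common blocks, behaviour at the markers. -/

set_option autoImplicit false

namespace Pool.Agent.Helper68.SG

open Pool.Agent.Helper51.SG Pool.Agent.Helper31.SG

variable {A : Type} {p : Par} {w : ℕ → A} {tau : ℕ → ℕ → ℕ → ℕ}
    {C : ℕ → ℕ → ℕ → Prop} {m : ℕ} {u v s nn Tu Tv : ℕ → ℕ}

theorem posU (hc : Ctx p w tau C m u v s nn Tu Tv) {i k : ℕ} (hk : k < m)
    (hb : p.wid i ≤ nn (u k)) : Tu k ≡ s (u k) [MOD p.P i] :=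
  know_of_wid hc.ok hc.good hb (hc.occ k hk)

theorem marginU (hc : Ctx p w tau C m u v s nn Tu Tv) {i D : ℕ}
    (hD : ∀ k < m, nn (u k) < Lam p i → p.n * Lam p i ≤ D)
    (hbig : ∃ k < m, Lam p i ≤ nn (u k)) {z : ℕ} (h0 : Tu 0 ≤ z) (hm : z < Tu m)
    (hfar : FarB p m u s nn i D z) :
    ∃ k < m, Lam p i ≤ nn (u k) ∧ Tu k ≤ z ∧ z < Tu (k + 1) ∧ Tu k + D ≤ z ∧
      z + D ≤ Tu (k + 1) :=
  margin hc.hm hc.hnn hc.hTu hbig
    (fun k hk hb => posU hc hk ((wid_le_Lam hc.ok i).trans hb)) hD h0 hm hfar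

theorem marginV (hc : Ctx p w tau C m u v s nn Tu Tv) {i D : ℕ}
    (hD : ∀ k < m, nn (u k) < Lam p i → p.n * Lam p i ≤ D)
    (hbig : ∃ k < m, Lam p i ≤ nn (u k)) {z : ℕ} (h0 : Tv 0 ≤ z) (hm : z < Tv m)
    (hfar : FarB p m u s nn i D z) :
    ∃ k < m, Lam p i ≤ nn (v k) ∧ Tv k ≤ z ∧ z < Tv (k + 1) ∧ Tv k + D ≤ z ∧
      z + D ≤ Tv (k + 1) := by
  apply margin hc.hm hc.hnn hc.hTv _ (fun k hk hb => posV hc i k hk hb) _ h0 hm _
  · obtain ⟨k, hk, hb⟩ := hbig
    obtain ⟨k', hk', he⟩ := hc.huv k hk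
    exact ⟨k', hk', by rw [he]; exact hb⟩
  · intro k hk hs
    obtain ⟨k', hk', he⟩ := hc.hvu k hk
    exact hD k' hk' (by rw [he]; exact hs)
  · intro k hk hb
    obtain ⟨k', hk', he⟩ := hc.hvu k hk
    rw [← he] at hb ⊢
    exact hfar k' hk' hb

theorem FarB.mono {i D D' z : ℕ} (h : FarB p m u s nn i D z) (hD : D' ≤ D) :
    FarB p m u s nn i D' z := fun k hk hb =>
  ⟨fun h1 => (h k hk hb).1 (h1.mono hD), fun h1 => (h k hk hb).2 (h1.mono hD)⟩

theorem FarB.add {i D D' t z : ℕ} (h : FarB p m u s nn i D z) (hD : D' + t ≤ D) :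
    FarB p m u s nn i D' (z + t) := fun k hk hb =>
  ⟨fun h1 => (h k hk hb).1 (h1.of_add.mono hD), fun h1 => (h k hk hb).2 (h1.of_add.mono hD)⟩

theorem FarB.sub {i D D' t z : ℕ} (h : FarB p m u s nn i D (z + t)) (hD : D' + t ≤ D) :
    FarB p m u s nn i D' z := fun k hk hb =>
  ⟨fun h1 => (h k hk hb).1 (h1.add.mono hD), fun h1 => (h k hk hb).2 (h1.add.mono hD)⟩

theorem FarB.congr {i D z z' : ℕ} (h : FarB p m u s nn i D z) (hz : z ≡ z' [MOD p.P i]) :
    FarB p m u s nn i D z' := fun k hk hb =>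
  ⟨fun h1 => (h k hk hb).1 (h1.congr hz.symm), fun h1 => (h k hk hb).2 (h1.congr hz.symm)⟩

theorem FarB.up (hp : p.Ok) {i D z : ℕ} (h : FarB p m u s nn i D z) :
    FarB p m u s nn (i + 1) D z := fun k hk hb =>
  ⟨fun h1 => (h k hk ((Lam_mono hp i).trans hb)).1 (h1.of_dvd (P_dvd hp i)),
    fun h1 => (h k hk ((Lam_mono hp i).trans hb)).2 (h1.of_dvd (P_dvd hp i))⟩

/-- common blocks -/
theorem common_ag (hc : Ctx p w tau C m u v s nn Tu Tv) {i : ℕ}
    (hcl : Claim p C m u v s nn Tv (i + 1)) (hbig : ∃ k < m, Lam p (i + 1) ≤ nn (u k))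
    {k j D : ℕ} (hk : k < m) (hj : j < nn (v k))
    (hfar : FarB p m u s nn (i + 1) (Dd p (i + 1) + p.len (i + 1) + D) (Tv k + j)) :
    Ag w (s (v k) + j) (Tv k + j) D := by
  have hTvk := hc.hTv k hk
  have hn : p.n * Lam p (i + 1) ≤ Dd p (i + 1) + p.len (i + 1) + D := by
    have := n_Lam_succ_le_Dd (p := p) i
    omega
  have h0 : Tv 0 ≤ Tv k + j := (T_mono hc.hTv (Nat.zero_le k) hk.le).trans (by omega)
  have h1 : Tv k + j < Tv m :=
    lt_of_lt_of_le (by omega : Tv k + j < Tv (k + 1)) (T_mono hc.hTv hk le_rfl)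
  obtain ⟨k', hk', hb, h2, h3, h4, h5⟩ := marginV hc (fun _ _ _ => hn) hbig h0 h1 hfar
  have : k = k' := T_unique hc.hTv (z := Tv k + j) hk hk' (by omega) (by omega) h2 h3
  subst this
  intro t ht
  have h6 := agree hc i hcl hbig k hk (j + t) (by omega) (by
    rw [← add_assoc]
    exact hfar.add (by omega))
  rw [← add_assoc, ← add_assoc] at h6
  exact h6

/-- counters agree at the markers -/
theorem marker_cnt (hc : Ctx p w tau C m u v s nn Tu Tv) {i : ℕ}
    (hcl : Claim p C m u v s nn Tv (i + 1)) {k j : ℕ} (hk : k < m) (hj : j < nn (v k))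
    (hfar : FarB p m u s nn i (Rm p i) (Tv k + j)) (hb : Rm p i ≤ nn (v k))
    (hpos : Tv k ≡ s (v k) [MOD p.P i]) (st e : ℕ) :
    cnt p tau i st e (s (v k) + j) ≡ cnt p tau i st e (Tv k + j) [MOD p.q] := by
  have hp := hc.ok
  have hnupos : 0 < p.nu i := lt_of_lt_of_le (len_pos hp (i + 1)) (len_succ_le_nu hp i)
  have hw1 := wid_pos hp i
  have hD := Dd_succ_le hp i
  have hL := len_succ_le_nu hp i
  have hbig : ∃ k < m, Lam p (i + 1) ≤ nn (u k) := by
    obtain ⟨k', hk', he⟩ := hc.hvu k hk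
    refine ⟨k', hk', ?_⟩
    rw [he]
    have := Lam_succ_le_nu hp i
    unfold Rm at hb
    omega
  have hAg : Ag w (s (v k) + j) (Tv k + j) (2 * p.nu i + p.wid i) := by
    apply common_ag hc hcl hbig hk hj
    refine (hfar.up hp).mono ?_
    unfold Rm
    omega
  have hpos' : s (v k) + j ≡ Tv k + j [MOD p.P i] := hpos.symm.add_right j
  set z := Tv k + j with hz
  set y := s (v k) + j with hy
  -- offset to a multiple of nu
  obtain ⟨j0, hj0, hd⟩ : ∃ j0 < p.nu i, p.nu i ∣ z + j0 := by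
    refine ⟨(p.nu i - z % p.nu i) % p.nu i, Nat.mod_lt _ hnupos, ?_⟩
    have h1 := Nat.mod_lt z hnupos
    have h2 := Nat.div_add_mod z (p.nu i)
    rcases Nat.eq_zero_or_pos (z % p.nu i) with h0 | h0
    · rw [h0]; simp [Nat.dvd_of_mod_eq_zero h0]
    · rw [Nat.mod_eq_of_lt (by omega)]
      refine ⟨z / p.nu i + 1, ?_⟩
      rw [mul_add, mul_one]
      omega
  have hd' : p.nu i ∣ y + j0 :=
    ((hpos'.of_dvd (hp.nu_dvd i)).add_right j0).dvd_iff dvd_rfl |>.2 hd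
  have hwin := hc.good.window i (y + j0) (z + j0) st e hd' hd (by
    intro t ht
    have := hAg (j0 + t) (by omega)
    rw [← add_assoc, ← add_assoc] at this
    exact this)
  rw [cnt_eq p tau i st e (Nat.le_add_right y j0), cnt_eq p tau i st e (Nat.le_add_right z j0)]
    at hwin
  have hsh : cI (fun b => p.len i ∣ b ∧ tau i st b = e) y (y + j0) =
      cI (fun b => p.len i ∣ b ∧ tau i st b = e) z (z + j0) := by
    apply cI_shift
    intro t ht
    have hal : p.len i ∣ y + t ↔ p.len i ∣ z + t :=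
      ((hpos'.of_dvd (len_dvd_P hp i)).add_right t).dvd_iff dvd_rfl
    constructor
    · rintro ⟨h1, h2⟩
      refine ⟨hal.1 h1, ?_⟩
      rw [← h2]
      refine (hc.good.typ i (y + t) (z + t) st h1 (hal.1 h1) ?_).symm
      intro t' ht'
      have := hAg (t + t') (by omega)
      rw [← add_assoc, ← add_assoc] at this
      exact this
    · rintro ⟨h1, h2⟩
      refine ⟨hal.2 h1, ?_⟩
      rw [← h2]
      refine (hc.good.typ i (y + t) (z + t) st (hal.2 h1) h1 ?_)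
      intro t' ht'
      have := hAg (t + t') (by omega)
      rw [← add_assoc, ← add_assoc] at this
      exact this
  rw [hsh] at hwin
  exact Nat.ModEq.add_right_cancel' _ hwin

end Pool.Agent.Helper68.SG
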