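import Pool.Agent.Helper68.SG.B7b

/-! Part B: the finite set of exceptional blocks. -/

set_option autoImplicit false

namespace Pool.Agent.Helper68.SG

open Pool.Agent.Helper51.SG Pool.Agent.Helper31.SG

variable {A : Type} {p : Par} {w : ℕ → A} {tau : ℕ → ℕ → ℕ → ℕ}
    {C : ℕ → ℕ → ℕ → Prop} {m : ℕ} {u v s nn Tu Tv : ℕ → ℕ}

theorem T_len {T nn w : ℕ → ℕ} {m L : ℕ} (hT : ∀ k < m, T (k + 1) = T k + nn (w k))
    (h : ∀ k < m, nn (w k) ≤ L) : ∀ k ≤ m, T k ≤ T 0 + k * L := by
  intro k
  induction k with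
  | zero => intro _; omega
  | succ k ih =>
    intro hk
    have h1 := hT k (by omega)
    have h2 := h k (by omega)
    have h3 := ih (by omega)
    rw [Nat.succ_mul]
    omega

/-- the numerical bound -/
theorem B_bound (hp : p.Ok) (i : ℕ) :
    p.n * (2 * (2 * (Dd p (i + 1) + p.len (i + 1) + p.wid i) / p.len i + 1)) +
      (p.n * Lam p (i + 1) / p.len i + 1) + p.n * 3 + p.n * (Lam p i / p.len i + 1) ≤ p.B := by
  have hn := hp.n_pos
  have hr := hp.r_ge
  have hL := len_pos hp i
  have h1 : p.len (i + 1) = p.r * p.len i := len_succ p i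
  have h2 : Lam p (i + 1) = (16 * p.n * p.r) * p.len i := by rw [Lam_succ, h1]; ring
  have h3 : Dd p (i + 1) = ((p.n + 1) * (16 * p.n * p.r)) * p.len i := by
    rw [Dd_succ, h2]; ring
  have h4 := wid_le p i
  have e1 : 2 * (Dd p (i + 1) + p.len (i + 1) + p.wid i) / p.len i ≤
      2 * ((p.n + 1) * (16 * p.n * p.r) + p.r + 2) := by
    rw [h1, h3]
    calc 2 * ((p.n + 1) * (16 * p.n * p.r) * p.len i + p.r * p.len i + p.wid i) / p.len i
        ≤ (2 * ((p.n + 1) * (16 * p.n * p.r) + p.r + 2)) * p.len i / p.len i := by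
          apply Nat.div_le_div_right
          calc 2 * ((p.n + 1) * (16 * p.n * p.r) * p.len i + p.r * p.len i + p.wid i)
              ≤ 2 * ((p.n + 1) * (16 * p.n * p.r) * p.len i + p.r * p.len i + 2 * p.len i) := by
                omega
            _ = _ := by ring
      _ = _ := Nat.mul_div_cancel _ hL
  have e2 : p.n * Lam p (i + 1) / p.len i = p.n * (16 * p.n * p.r) := by
    rw [h2, ← mul_assoc, Nat.mul_div_cancel _ hL]
  have e3 : Lam p i / p.len i ≤ 16 * p.n := by
    unfold Lam Par.len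
    split_ifs with h0
    · subst h0; simp; omega
    · have : 0 < p.r ^ i := hL
      rw [Nat.mul_div_cancel _ this]
  rw [e2]
  unfold Par.B
  have hr1 : 1 ≤ p.r := by omega
  set N3 := p.n ^ 3 * p.r with hN3
  have b1 : p.n ^ 2 * p.r ≤ N3 :=
    Nat.mul_le_mul_right _ (Nat.pow_le_pow_right hn (by norm_num))
  have b2 : p.n * p.r ≤ N3 := by
    calc p.n * p.r = p.n ^ 1 * p.r := by rw [pow_one]
      _ ≤ _ := Nat.mul_le_mul_right _ (Nat.pow_le_pow_right hn (by norm_num))
  have b3 : p.n ≤ N3 := le_trans (Nat.le_mul_of_pos_right _ hr1) b2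
  have b4 : p.n ^ 2 ≤ N3 := le_trans (Nat.le_mul_of_pos_right _ hr1) b1
  have e4 : p.n * (2 * (2 * (Dd p (i + 1) + p.len (i + 1) + p.wid i) / p.len i + 1)) ≤
      64 * N3 + 64 * (p.n ^ 2 * p.r) + 4 * (p.n * p.r) + 10 * p.n := by
    calc _ ≤ p.n * (2 * (2 * ((p.n + 1) * (16 * p.n * p.r) + p.r + 2) + 1)) :=
          Nat.mul_le_mul_left _ (Nat.mul_le_mul_left _ (by omega))
      _ = _ := by rw [hN3]; ring
  have e5 : p.n * (16 * p.n * p.r) = 16 * (p.n ^ 2 * p.r) := by ring
  have e6 : p.n * (Lam p i / p.len i + 1) ≤ 16 * p.n ^ 2 + p.n := by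
    calc _ ≤ p.n * (16 * p.n + 1) := Nat.mul_le_mul_left _ (by omega)
      _ = _ := by ring
  have e7 : 512 * p.n ^ 3 * p.r = 512 * N3 := by rw [hN3]; ring
  rw [e5, e7]
  omega

theorem exists_F (hc : Ctx p w tau C m u v s nn Tu Tv) (i : ℕ) (σ : ℕ → ℕ) {lo hi : ℕ}
    (hlh : hi ≤ lo + p.P i) (h0 : Tv 0 ≤ lo) (hm : hi ≤ Tv m) :
    ∃ F : Finset ℕ, (∀ b ∈ F, p.len i ∣ b) ∧ F.card ≤ p.B ∧
      (∀ z, lo ≤ z → z < hi → p.len i ∣ z → p.len i ∣ σ z →
        ¬ ((∃ k < m, Lam p (i + 1) ≤ nn (u k)) ∧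
          FarB p m u s nn (i + 1) (Dd p (i + 1) + p.len (i + 1) + p.wid i) z) → σ z ∈ F) ∧
      (∀ k < m, ∀ b, p.len i ∣ b → b < Tu (k + 1) → Tu (k + 1) < b + p.wid i → b ∈ F) ∧
      (∀ k < m, nn (u k) < Lam p i → ∀ b, p.len i ∣ b → Tu k ≤ b → b < Tu (k + 1) → b ∈ F) := by
  classical
  have hp := hc.ok
  have hL := len_pos hp i
  set D3 := Dd p (i + 1) + p.len (i + 1) + p.wid i with hD3
  set S1 := (Finset.Ico lo hi).filter (fun z => p.len i ∣ z ∧
    ¬ ((∃ k < m, Lam p (i + 1) ≤ nn (u k)) ∧ FarB p m u s nn (i + 1) D3 z)) with hS1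
  set S2 := (Finset.range m).biUnion (fun k =>
    (Finset.Ico (Tu (k + 1) - p.wid i) (Tu (k + 1))).filter (fun b => p.len i ∣ b)) with hS2
  set S3 := (Finset.range m).biUnion (fun k =>
    if nn (u k) < Lam p i then
      (Finset.Ico (Tu k) (Tu (k + 1))).filter (fun b => p.len i ∣ b) else ∅) with hS3
  have hw := wid_le p i
  have hwpos := wid_pos hp i
  have hn := hp.n_pos
  -- cardinality of S1
  have c1 : S1.card ≤ p.n * (2 * (2 * D3 / p.len i + 1)) + (p.n * Lam p (i + 1) / p.len i + 1) := by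
    by_cases hbig : ∃ k < m, Lam p (i + 1) ≤ nn (u k)
    · refine le_trans ?_ (Nat.le_add_right _ _)
      have hsub : S1 ⊆ (Finset.range m).biUnion (fun k =>
          (Finset.Ico lo hi).filter (fun z => p.len i ∣ z ∧ Near (p.P (i + 1)) D3 z (s (u k))) ∪
          (Finset.Ico lo hi).filter (fun z => p.len i ∣ z ∧
            Near (p.P (i + 1)) D3 z (s (u k) + nn (u k)))) := by
        intro z hz
        rw [hS1, Finset.mem_filter] at hz
        obtain ⟨hz1, hz2, hz3⟩ := hz
        have hz4 : ¬ FarB p m u s nn (i + 1) D3 z := fun h => hz3 ⟨hbig, h⟩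
        unfold FarB at hz4
        push Not at hz4
        obtain ⟨k, hk, hb, hz5⟩ := hz4
        rw [Finset.mem_biUnion]
        refine ⟨k, Finset.mem_range.2 hk, ?_⟩
        rw [Finset.mem_union, Finset.mem_filter, Finset.mem_filter]
        by_cases hz6 : Near (p.P (i + 1)) D3 z (s (u k))
        · exact Or.inl ⟨hz1, hz2, hz6⟩
        · exact Or.inr ⟨hz1, hz2, hz5 hz6⟩
      refine (Finset.card_le_card hsub).trans ?_
      refine (Finset.card_biUnion_le_card_mul _ _ (2 * (2 * D3 / p.len i + 1)) ?_).trans ?_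
      · intro k _
        refine (Finset.card_union_le _ _).trans ?_
        have hP : p.P i + 2 * D3 ≤ p.P (i + 1) := by
          have g1 := hp.P_succ i
          have g2 := hp.P_ge i
          have g3 := Dd_succ_le hp i
          have g4 := len_succ_le_nu hp i
          have g5 := wid_le_len_succ hp i
          have g6 : 4 * p.P i ≤ 4 * p.n * p.P i :=
            Nat.mul_le_mul_right _ (by omega)
          have g7 : 1024 * p.nu i ≤ 1024 * p.n * p.nu i :=
            Nat.mul_le_mul_right _ (by omega)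
          omega
        have hcard : ∀ β, ((Finset.Ico lo hi).filter
            (fun z => p.len i ∣ z ∧ Near (p.P (i + 1)) D3 z β)).card ≤ 2 * D3 / p.len i + 1 := by
          intro β
          apply card_near_le (P := p.P i) (P' := p.P (i + 1)) (lo := lo) (β := β) hL hP
          intro b hb
          rw [Finset.mem_filter, Finset.mem_Ico] at hb
          exact ⟨hb.2.1, hb.1.1, by omega, hb.2.2⟩
        have g1 := hcard (s (u k))
        have g2 := hcard (s (u k) + nn (u k))
        omega
      · rw [Finset.card_range]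
        exact Nat.mul_le_mul_right _ hc.hm
    · refine le_trans ?_ (Nat.le_add_left _ _)
      have hsm : ∀ k < m, nn (v k) ≤ Lam p (i + 1) := by
        intro k hk
        obtain ⟨k', hk', he⟩ := hc.hvu k hk
        by_contra hlt
        exact hbig ⟨k', hk', by rw [he]; omega⟩
      have hlen := T_len hc.hTv hsm m le_rfl
      have hmn : m * Lam p (i + 1) ≤ p.n * Lam p (i + 1) := Nat.mul_le_mul_right _ hc.hm
      apply card_mults_le hL
      · intro b hb
        rw [hS1, Finset.mem_filter] at hb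
        exact hb.2.1
      · intro a ha b hb _
        rw [hS1, Finset.mem_filter, Finset.mem_Ico] at ha hb
        omega
  have c2 : S2.card ≤ p.n * 3 := by
    refine (Finset.card_biUnion_le_card_mul _ _ 3 ?_).trans ?_
    · intro k _
      refine (card_mults_le (W := p.wid i) hL _ ?_ ?_).trans ?_
      · intro b hb
        rw [Finset.mem_filter] at hb
        exact hb.2
      · intro a ha b hb _
        rw [Finset.mem_filter, Finset.mem_Ico] at ha hb
        omega
      · have : p.wid i / p.len i ≤ 2 := by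
          calc p.wid i / p.len i ≤ 2 * p.len i / p.len i := Nat.div_le_div_right hw
            _ = 2 := Nat.mul_div_cancel _ hL
        omega
    · rw [Finset.card_range]
      exact Nat.mul_le_mul_right _ hc.hm
  have c3 : S3.card ≤ p.n * (Lam p i / p.len i + 1) := by
    refine (Finset.card_biUnion_le_card_mul _ _ (Lam p i / p.len i + 1) ?_).trans ?_
    · intro k hk
      rw [Finset.mem_range] at hk
      split_ifs with hs
      · apply card_mults_le hL
        · intro b hb
          rw [Finset.mem_filter] at hb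
          exact hb.2
        · intro a ha b hb _
          rw [Finset.mem_filter, Finset.mem_Ico] at ha hb
          have := hc.hTu k hk
          omega
      · simp
    · rw [Finset.card_range]
      exact Nat.mul_le_mul_right _ hc.hm
  refine ⟨(S1.image σ).filter (fun b => p.len i ∣ b) ∪ S2 ∪ S3, ?_, ?_, ?_, ?_, ?_⟩
  · intro b hb
    rw [Finset.mem_union, Finset.mem_union] at hb
    rcases hb with (hb | hb) | hb
    · exact (Finset.mem_filter.1 hb).2
    · rw [hS2, Finset.mem_biUnion] at hb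
      obtain ⟨k, _, hb⟩ := hb
      exact (Finset.mem_filter.1 hb).2
    · rw [hS3, Finset.mem_biUnion] at hb
      obtain ⟨k, _, hb⟩ := hb
      split_ifs at hb
      · exact (Finset.mem_filter.1 hb).2
      · simp at hb
  · have g1 := Finset.card_union_le ((S1.image σ).filter (fun b => p.len i ∣ b) ∪ S2) S3
    have g2 := Finset.card_union_le ((S1.image σ).filter (fun b => p.len i ∣ b)) S2
    have g3 : ((S1.image σ).filter (fun b => p.len i ∣ b)).card ≤ S1.card :=
      (Finset.card_filter_le _ _).trans Finset.card_image_le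
    have g4 := B_bound hp i
    rw [← hD3] at g4
    omega
  · intro z h1 h2 h3 h4 h5
    rw [Finset.mem_union, Finset.mem_union]
    refine Or.inl (Or.inl ?_)
    rw [Finset.mem_filter]
    refine ⟨Finset.mem_image_of_mem σ ?_, h4⟩
    rw [hS1, Finset.mem_filter, Finset.mem_Ico]
    exact ⟨⟨h1, h2⟩, h3, h5⟩
  · intro k hk b h1 h2 h3
    rw [Finset.mem_union, Finset.mem_union]
    refine Or.inl (Or.inr ?_)
    rw [hS2, Finset.mem_biUnion]
    refine ⟨k, Finset.mem_range.2 hk, ?_⟩
    rw [Finset.mem_filter, Finset.mem_Ico]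
    exact ⟨⟨by omega, h2⟩, h1⟩
  · intro k hk hs b h1 h2 h3
    rw [Finset.mem_union]
    refine Or.inr ?_
    rw [hS3, Finset.mem_biUnion]
    refine ⟨k, Finset.mem_range.2 hk, ?_⟩
    rw [if_pos hs, Finset.mem_filter, Finset.mem_Ico]
    exact ⟨⟨h2, h3⟩, h1⟩

end Pool.Agent.Helper68.SG
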