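import Pool.Agent.Helper68.SG.B7c

/-! Part B: the downward induction step. -/

set_option autoImplicit false

namespace Pool.Agent.Helper68.SG

open Pool.Agent.Helper51.SG Pool.Agent.Helper31.SG

variable {A : Type} {p : Par} {w : ℕ → A} {tau : ℕ → ℕ → ℕ → ℕ}
    {C : ℕ → ℕ → ℕ → Prop} {m : ℕ} {u v s nn Tu Tv : ℕ → ℕ}

theorem claimStep (hc : Ctx p w tau C m u v s nn Tu Tv) (i : ℕ)
    (hcl : Claim p C m u v s nn Tv (i + 1)) : Claim p C m u v s nn Tv i := by
  intro hbig ks hks js hjs hal hfar
  have hp := hc.ok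
  have hn := hp.n_pos
  have hLpos := len_pos hp i
  have hwpos := wid_pos hp i
  have hPpos := P_pos p i
  have hq := hp.q_gt
  -- small variables exist only at levels at least one
  have hDd : ∀ k < m, nn (u k) < Lam p i → p.n * Lam p i + Lam p i ≤ Dd p i := by
    intro k _ hs
    have hi := small_hD hp i hc.hnn hs
    obtain ⟨i', rfl⟩ := Nat.exists_eq_succ_of_ne_zero hi
    exact (n_Lam_succ_le_Dd (p := p) i').le
  set zs := Tv ks + js with hzs
  have hstepks := hc.hTv ks hks
  have hzs0 : Tv 0 ≤ zs := (T_mono hc.hTv (Nat.zero_le ks) hks.le).trans (by omega)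
  have hzsm : zs < Tv m :=
    lt_of_lt_of_le (by omega : zs < Tv (ks + 1)) (T_mono hc.hTv hks le_rfl)
  -- the variable of `zs` is big
  obtain ⟨k', hk', hb', h2, h3, h4, h5⟩ := marginV hc
    (fun k hk hs => le_trans (Nat.le_add_right _ _) (hDd k hk hs)) hbig hzs0 hzsm hfar
  have hkk : ks = k' := T_unique hc.hTv (z := zs) hks hk' (by omega) (by omega) h2 h3
  subst hkk
  have hposs := posV hc i ks hks hb'
  have halσ : p.len i ∣ s (v ks) + js :=
    (((hposs.of_dvd (len_dvd_P hp i)).add_right js).dvd_iff dvd_rfl).1 hal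
  refine ⟨halσ, ?_⟩
  by_contra hne
  -- the shift
  obtain ⟨K, hK, hVal, hKfar⟩ := exists_K5 hp hc.hm u s nn hc.hnn i
  -- the cell
  set c := (zs + K) / p.P i with hcdef
  have hc1 : c * p.P i ≤ zs + K := Nat.div_mul_le_self _ _
  have hc2 : zs + K < (c + 1) * p.P i := by
    rw [hcdef, add_mul, one_mul]
    have := Nat.div_add_mod (zs + K) (p.P i)
    rw [mul_comm] at this
    have := Nat.mod_lt (zs + K) hPpos
    omega
  have hc3 : (c + 1) * p.P i = c * p.P i + p.P i := by ring
  obtain ⟨lo, hlo⟩ : ∃ lo, lo = max (Tv 0) (c * p.P i - K) := ⟨_, rfl⟩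
  obtain ⟨hi, hhi⟩ : ∃ hi, hi = min (Tv m) ((c + 1) * p.P i - K) := ⟨_, rfl⟩
  have hlo0 : Tv 0 ≤ lo := by omega
  have hhim : hi ≤ Tv m := by omega
  have hlozs : lo ≤ zs := by omega
  have hzshi : zs < hi := by omega
  have hlh : hi ≤ lo + p.P i := by omega
  -- the source map and the exceptional blocks
  obtain ⟨σ, hσ⟩ := exists_src hc.hTv s
  obtain ⟨F, hF0, hFc, hF1, hF2, hF3⟩ := exists_F hc i σ hlh hlo0 hhim
  obtain ⟨st, hst⟩ := hc.good.sep i zs hal F hF0 hFc
  set e := tau i st zs with he
  -- an event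
  set Ev : ℕ → Prop := fun b => p.len i ∣ b ∧ tau i st b = e with hEv
  have hFev : ∀ b ∈ F, Ev b → b ≡ zs [MOD p.P i] := by
    intro b hb hev
    exact hc.good.know i b zs hev.1 hal (hst b hb hev.2)
  -- no events near junctions
  have hJ : ∀ k < m, ∀ b, p.len i ∣ b → tau i st b = e → b < Tu (k + 1) →
      b + p.wid i ≤ Tu (k + 1) := by
    intro k hk b hb1 hb2 hb3
    by_contra hcon
    push Not at hcon
    have hbF := hF2 k hk b hb1 hb3 hcon
    have hbz := hFev b hbF ⟨hb1, hb2⟩
    rcases Nat.eq_zero_or_pos i with hi0 | hi0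
    · subst hi0
      have : p.wid 0 = 1 := rfl
      omega
    · obtain ⟨i', rfl⟩ : ∃ i', i = i' + 1 := ⟨i - 1, by omega⟩
      have hstep := hc.hTu k hk
      have hnn1 := hc.hnn (u k)
      have hw := wid_le_Lam hp (i' + 1)
      have hDdi : p.n * Lam p (i' + 1) + Lam p (i' + 1) = Dd p (i' + 1) :=
        n_Lam_succ_le_Dd (p := p) i'
      have h0 : Tu 0 ≤ Tu (k + 1) - 1 := by
        have := T_mono hc.hTu (Nat.zero_le k) hk.le
        omega
      have h1 : Tu (k + 1) - 1 < Tu m := by
        have : Tu (k + 1) ≤ Tu m := T_mono hc.hTu hk le_rfl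
        omega
      have hfb : FarB p m u s nn (i' + 1) (Dd p (i' + 1)) b := hfar.congr hbz.symm
      have hfz : FarB p m u s nn (i' + 1) (p.n * Lam p (i' + 1)) (Tu (k + 1) - 1) := by
        have : Tu (k + 1) - 1 = b + (Tu (k + 1) - 1 - b) := by omega
        rw [this]
        apply hfb.add
        omega
      obtain ⟨k2, hk2, _, g1, g2, _, g3⟩ := marginU hc (fun _ _ _ => le_rfl) hbig h0 h1 hfz
      have : k = k2 := T_unique hc.hTu (z := Tu (k + 1) - 1) hk hk2 (by omega) (by omega) g1 g2
      subst this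
      have hl1 : 1 * 16 ≤ p.n * Lam p (i' + 1) := by
        rw [Lam_succ]
        have := len_pos hp (i' + 1)
        apply Nat.mul_le_mul hn
        rw [mul_assoc]
        exact Nat.le_mul_of_pos_right _ (by positivity)
      omega
  -- no events in small variables
  have hsmall : ∀ k < m, nn (u k) < Lam p i → ∀ b, Tu k ≤ b → b < Tu (k + 1) → ¬ Ev b := by
    intro k hk hs b hb1 hb2 hev
    have hbF := hF3 k hk hs b hev.1 hb1 hb2
    have hbz := hFev b hbF hev
    have hfb : FarB p m u s nn i (Dd p i) b := hfar.congr hbz.symm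
    have h0 : Tu 0 ≤ b := (T_mono hc.hTu (Nat.zero_le k) hk.le).trans hb1
    have h1 : b < Tu m := lt_of_lt_of_le hb2 (T_mono hc.hTu hk le_rfl)
    obtain ⟨k2, hk2, hb, g1, g2, _, _⟩ := marginU hc
      (fun k hk hs => le_trans (Nat.le_add_right _ _) (hDd k hk hs)) hbig h0 h1 hfb
    have : k = k2 := T_unique hc.hTu (z := b) hk hk2 hb1 hb2 g1 g2
    subst this
    omega
  -- counters
  obtain ⟨hcnt1, hcnt2⟩ := counters hc i st e K hK hVal hKfar hbig hJ
  have hsum : ∀ k ≤ m, cI (fun z => Ev (σ z)) (Tv 0) (Tv k) =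
      ∑ k' ∈ Finset.range k, (cnt p tau i st e (s (v k') + nn (v k')) -
          cnt p tau i st e (s (v k'))) := by
    intro k hk
    rw [cI_src hc.hTv hσ k hk]
    apply Finset.sum_congr rfl
    intro k' _
    rw [cnt_eq p tau i st e (Nat.le_add_right (s (v k')) (nn (v k')))]
    rw [Nat.add_sub_cancel_left]
  -- behaviour at the ends of the cell
  have hedge : ∀ z, Tv 0 ≤ z → z ≤ Tv m → (z = Tv 0 ∨ z = Tv m ∨ (z < Tv m ∧ p.P i ∣ z + K)) →
      cnt p tau i st e z ≡ cnt p tau i st e (Tu 0) + cI (fun z => Ev (σ z)) (Tv 0) z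
        [MOD p.q] := by
    intro z hz0 hzm hz
    rcases hz with hz | hz | ⟨hz, hzK⟩
    · subst hz
      rw [cI_self, hc.hT0, add_zero]
    · subst hz
      rw [hsum m le_rfl, hc.hTm]
      exact hcnt2
    · have hfz := hKfar z hzK
      have hnRm : ∀ k < m, nn (u k) < Lam p i → p.n * Lam p i ≤ Rm p i :=
        fun k _ hs => n_Lam_le_Rm hp i (small_hD hp i hc.hnn hs)
      obtain ⟨k, hk, hb, g1, g2, g3, g4⟩ := marginV hc hnRm hbig hz0 hz hfz
      obtain ⟨j, rfl⟩ := Nat.exists_eq_add_of_le g1
      have hstep := hc.hTv k hk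
      have hj : j < nn (v k) := by omega
      have hpos := posV hc i k hk hb
      have h6 := marker_cnt hc hcl hk hj hfz (by omega) hpos st e
      have h7 : p.P i ∣ s (v k) + K + j := by
        have h8 : s (v k) + j + K ≡ Tv k + j + K [MOD p.P i] :=
          (hpos.symm.add_right j).add_right K
        have h9 := (h8.dvd_iff dvd_rfl).2 hzK
        have h10 : s (v k) + K + j = s (v k) + j + K := by ring
        rw [h10]; exact h9
      have h8 := hcnt1 k hk (Or.inl ⟨j, hj, h7⟩)
      rw [← hsum k hk.le] at h8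
      rw [cI_add (T_mono hc.hTv (Nat.zero_le k) hk.le) g1]
      have h9 : cI (fun z => Ev (σ z)) (Tv k) (Tv k + j) = cI Ev (s (v k)) (s (v k) + j) := by
        apply cI_shift
        intro t ht
        rw [hσ k hk t (by omega)]
      rw [h9]
      refine h6.symm.trans ?_
      rw [cnt_eq p tau i st e (Nat.le_add_right (s (v k)) j), ← add_assoc]
      exact h8.add_right _
  -- the two counts in the cell
  have hA : cI Ev lo hi = 1 := by
    apply cI_eq_one hlozs hzshi ⟨hal, rfl⟩
    intro z hz1 hz2 hz3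
    rcases lt_trichotomy z zs with h | h | h
    · have := hc.good.sparse i z zs st hz3.1 hal h hz3.2
      omega
    · exact h
    · have := hc.good.sparse i zs z st hal hz3.1 h hz3.2.symm
      omega
  have hclose : ∀ z, lo ≤ z → z < hi → z ≡ zs [MOD p.P i] → z = zs := by
    intro z hz1 hz2 hz3
    rcases le_total z zs with h | h
    · have h6 : p.P i ∣ zs - z := (Nat.modEq_iff_dvd' h).1 hz3
      have h7 := Nat.eq_zero_of_dvd_of_lt h6 (by omega)
      omega
    · have h6 : p.P i ∣ z - zs := (Nat.modEq_iff_dvd' h).1 hz3.symm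
      have h7 := Nat.eq_zero_of_dvd_of_lt h6 (by omega)
      omega
  have hAσ : cI (fun z => Ev (σ z)) lo hi = 0 := by
    apply cI_eq_zero
    intro z hz1 hz2 hz3
    obtain ⟨k, hk, j, hj, rfl⟩ := T_idx hc.hTv (z := z) (by omega) (by omega)
    have hstep := hc.hTv k hk
    rw [hσ k hk j hj] at hz3
    rcases Nat.lt_or_ge (nn (v k)) (Lam p i) with hs | hb
    · obtain ⟨k1, hk1, he1⟩ := hc.hvu k hk
      obtain ⟨k2, hk2, he2, he3⟩ := hc.ref k1 hk1
      have hstep2 := hc.hTu k2 hk2
      rw [he1] at he2 he3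
      refine hsmall k2 hk2 (by rw [he2]; exact hs) (s (v k) + j) ?_ ?_ hz3
      · omega
      · rw [hstep2, he2]; omega
    · have hpos := posV hc i k hk hb
      have hposj : Tv k + j ≡ s (v k) + j [MOD p.P i] := hpos.add_right j
      have halz : p.len i ∣ Tv k + j :=
        ((hposj.of_dvd (len_dvd_P hp i)).dvd_iff dvd_rfl).2 hz3.1
      -- if z = zs we get a contradiction
      have hsame : Tv k + j = zs → False := by
        intro h
        have hkk2 : k = ks := T_unique hc.hTv (z := zs) hk hks (by omega) (by omega)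
          (by omega) (by omega)
        subst hkk2
        have hjj : j = js := by omega
        subst hjj
        -- `zs` is not common
        by_cases hcom : (∃ k < m, Lam p (i + 1) ≤ nn (u k)) ∧
          FarB p m u s nn (i + 1) (Dd p (i + 1) + p.len (i + 1) + p.wid i) zs
        · have hag := common_ag hc hcl hcom.1 hks hjs hcom.2
          apply hne
          apply hc.good.coreOf i _ _ halσ hal
          intro t ht
          exact hag t (lt_of_lt_of_le ht (len_le_wid p i))
        · have hin := hF1 zs hlozs hzshi hal (by rw [hzs, hσ k hks j hjs]; exact halσ) hcom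
          have hσz : σ zs = s (v k) + j := hσ k hks j hjs
          rw [hσz] at hin
          exact hne (hst _ hin hz3.2)
      by_cases hcom : (∃ k < m, Lam p (i + 1) ≤ nn (u k)) ∧
          FarB p m u s nn (i + 1) (Dd p (i + 1) + p.len (i + 1) + p.wid i) (Tv k + j)
      · have hag := common_ag hc hcl hcom.1 hk hj hcom.2
        have ht := hc.good.typ i _ _ st hz3.1 halz hag
        rw [hz3.2] at ht
        -- so z is an event, hence z = zs
        rcases lt_trichotomy (Tv k + j) zs with h | h | h
        · have := hc.good.sparse i _ zs st halz hal h (by rw [← ht])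
          omega
        · exact hsame h
        · have := hc.good.sparse i zs _ st hal halz h (by rw [← ht])
          omega
      · have hin := hF1 (Tv k + j) hz1 hz2 halz (by rw [hσ k hk j hj]; exact hz3.1) hcom
        rw [hσ k hk j hj] at hin
        have h6 := hFev _ hin hz3
        exact hsame (hclose _ hz1 hz2 (hposj.trans h6))
  -- conclusion
  have hlo_edge := hedge lo hlo0 (by omega) (by
    rcases le_total (c * p.P i - K) (Tv 0) with h | h
    · left; omega
    · rcases Nat.eq_zero_or_pos (c * p.P i - K) with h0 | h0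
      · left; omega
      · right; right
        refine ⟨by omega, ?_⟩
        have : lo + K = c * p.P i := by omega
        rw [this]; exact Dvd.intro_left _ rfl)
  have hhi_edge := hedge hi (by omega) hhim (by
    rcases le_total (Tv m) ((c + 1) * p.P i - K) with h | h
    · right; left; omega
    · rcases Nat.eq_or_lt_of_le hhim with h0 | h0
      · right; left; exact h0
      · right; right
        refine ⟨h0, ?_⟩
        have : hi + K = (c + 1) * p.P i := by omega
        rw [this]; exact Dvd.intro_left _ rfl)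
  rw [cI_add hlo0 (by omega : lo ≤ hi), hAσ, add_zero] at hhi_edge
  have h6 := hhi_edge.trans hlo_edge.symm
  rw [cnt_eq p tau i st e (by omega : lo ≤ hi)] at h6
  have h7 : cI (fun b => p.len i ∣ b ∧ tau i st b = e) lo hi = 1 := hA
  rw [h7] at h6
  have h8 : 1 ≡ 0 [MOD p.q] := Nat.ModEq.add_left_cancel' (cnt p tau i st e lo) (by simpa using h6)
  have h9 : p.q ∣ 1 := (Nat.modEq_zero_iff_dvd).1 h8
  have h10 := Nat.le_of_dvd one_pos h9
  omega

end Pool.Agent.Helper68.SG
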