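import Pool.Agent.Helper68.SG.B1

/-! Part B: the context and the notions used in the statements of the lemmas. -/

set_option autoImplicit false

namespace Pool.Agent.Helper68.SG

/-- everything that is given in Part B -/
structure Ctx {A : Type} (p : Par) (w : ℕ → A) (tau : ℕ → ℕ → ℕ → ℕ) (C : ℕ → ℕ → ℕ → Prop)
    (m : ℕ) (u v s nn Tu Tv : ℕ → ℕ) : Prop where
  ok : p.Ok
  good : Good p w tau C
  hm : m ≤ p.n
  hvu : ∀ k < m, ∃ k' < m, u k' = v k
  huv : ∀ k < m, ∃ k' < m, v k' = u k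
  HC : HCond u v m
  hnn : ∀ x, 1 ≤ nn x
  hT0 : Tv 0 = Tu 0
  hTm : Tv m = Tu m
  hTu : ∀ k < m, Tu (k + 1) = Tu k + nn (u k)
  hTv : ∀ k < m, Tv (k + 1) = Tv k + nn (v k)
  occ : ∀ k < m, Ag w (Tu k) (s (u k)) (nn (u k))
  ref : ∀ k < m, ∃ k' < m, u k' = u k ∧ s (u k) = Tu k'

/-- variables of length at least `Lam p i` are big at level `i` -/
def Lam (p : Par) (i : ℕ) : ℕ := if i = 0 then 1 else 16 * p.n * p.r ^ i

/-- exponent of the markers used to find the position modulo `P i` -/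
def em (p : Par) (i : ℕ) : ℕ := if i = 0 then 0 else p.e (i - 1)

/-- the level of a length -/
noncomputable def lv (p : Par) (N : ℕ) : ℕ := Nat.findGreatest (fun l => p.wid l ≤ N) N

/-- the shift `K` gives a valid view of `u` -/
def Val (p : Par) (m : ℕ) (u s nn : ℕ → ℕ) (K : ℕ) : Prop :=
  ∀ k < m, ∀ j < nn (u k), ¬ p.P (lv p (nn (u k))) ∣ s (u k) + K + j

/-- `z` is at distance less than `D` from `β` modulo `P` -/
def Near (P D z β : ℕ) : Prop := ∃ d < D, z + d ≡ β [MOD P] ∨ z ≡ β + d [MOD P]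

/-- margin of the markers -/
def Rm (p : Par) (i : ℕ) : ℕ := 8 * p.nu i + 4 * p.wid i

/-- margin of the clear blocks -/
def Dd (p : Par) (i : ℕ) : ℕ := if i = 0 then 0 else (p.n + 1) * Lam p i

/-- `z` is not near (modulo `P i`) a boundary of a variable that is big at level `i` -/
def FarB (p : Par) (m : ℕ) (u s nn : ℕ → ℕ) (i D z : ℕ) : Prop :=
  ∀ k < m, Lam p i ≤ nn (u k) →
    ¬ Near (p.P i) D z (s (u k)) ∧ ¬ Near (p.P i) D z (s (u k) + nn (u k))

/-- blocks at level `i` in `v` have the same core as their source, if they are clear -/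
def Claim (p : Par) (C : ℕ → ℕ → ℕ → Prop) (m : ℕ) (u v s nn Tv : ℕ → ℕ) (i : ℕ) : Prop :=
  (∃ k < m, Lam p i ≤ nn (u k)) → ∀ k < m, ∀ j < nn (v k), p.len i ∣ Tv k + j →
    FarB p m u s nn i (Dd p i) (Tv k + j) →
      p.len i ∣ s (v k) + j ∧ C i (s (v k) + j) (Tv k + j)

end Pool.Agent.Helper68.SG
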