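import Mathlib

/-! Shared definitions for the proof of frozen statement S01797 (MP_6af7b0_al). -/

set_option autoImplicit false

namespace Pool.Agent.Helper68.SG

/-- The list of letters of an element of the free semigroup. -/
def toL (w : FreeSemigroup ℕ) : List ℕ := w.head :: w.tail

/-- The ruler function. -/
def v2 (n : ℕ) : ℕ := padicValNat 2 n

/-- `W` is a factor of the ruler sequence `v2 1, v2 2, v2 3, ...`. -/
def IsRul (W : List ℕ) : Prop := ∃ t, 1 ≤ t ∧ W = (List.range' t W.length).map v2

/-- Every substitution that sends `u` to a factor of the ruler sequence gives `v` the same value. -/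
def RulComm (u v : List ℕ) : Prop :=
  ∀ ψ : ℕ → List ℕ, (∀ x, ψ x ≠ []) → IsRul (u.flatMap ψ) → v.flatMap ψ = u.flatMap ψ

/-- The conclusion of S01797 for a finite set of identities. -/
def Concl (E : List (FreeSemigroup ℕ × FreeSemigroup ℕ)) : Prop :=
  ∃ (T : Type) (_ : Semigroup T),
        (∀ p ∈ E, ∀ f : FreeSemigroup ℕ →ₙ* T, f p.1 = f p.2) ∧
        ∃ (k : ℕ) (g : Fin k → T),
          Subsemigroup.closure (Set.range g) = ⊤ ∧
          ∃ c : ℝ, 1 < c ∧ ∃ N : ℕ, ∀ n ≥ N,
            c ^ n ≤ (Nat.card {x : T | ∃ w : FreeSemigroup (Fin k),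
              w.tail.length < n ∧ FreeSemigroup.lift g w = x} : ℝ)

/-- `w` agrees with itself on the windows of length `L` starting at `a` and at `b`. -/
def Ag {A : Type} (w : ℕ → A) (a b L : ℕ) : Prop := ∀ t < L, w (a + t) = w (b + t)

/-- Numerical parameters of the multi-scale construction. -/
structure Par where
  /-- bound for the length of the words of the identities -/
  n : ℕ
  /-- ratio of consecutive block lengths -/
  r : ℕ
  /-- `P i = 2 ^ e i` is the period at level `i` -/
  e : ℕ → ℕ
  /-- window length at level `i` -/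
  nu : ℕ → ℕ
  /-- modulus of the counters -/
  q : ℕ

namespace Par

/-- block length at level `i` -/
def len (p : Par) (i : ℕ) : ℕ := p.r ^ i

/-- the length of a window that determines a whole block at level `i` -/
def wid (p : Par) (i : ℕ) : ℕ := if i = 0 then 1 else 2 * p.r ^ i

/-- the period at level `i` -/
def P (p : Par) (i : ℕ) : ℕ := 2 ^ p.e i

/-- the number of blocks that the types at a level can separate -/
def B (p : Par) : ℕ := 512 * p.n ^ 3 * p.r

/-- numerical conditions on the parameters -/
structure Ok (p : Par) : Prop where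
  n_pos : 1 ≤ p.n
  r_ge : 16 * p.n ≤ p.r
  q_gt : p.n < p.q
  len_dvd_nu : ∀ i, p.len i ∣ p.nu i
  len_succ_dvd : ∀ i, p.len (i + 1) ∣ p.P i
  nu_dvd : ∀ i, p.nu i ∣ p.P i
  nu_ge : ∀ i, 32 * p.n ^ 2 * p.r ^ (i + 1) ≤ p.nu i
  P_ge : ∀ i, 1024 * p.n * p.nu i ≤ p.P i
  P_succ : ∀ i, 4 * p.n * p.P i ≤ p.P (i + 1)

end Par

/-- number of level-`i` blocks of type `t` (for the `s`-th typing) that start before `a` -/
def cnt (p : Par) (tau : ℕ → ℕ → ℕ → ℕ) (i s t a : ℕ) : ℕ :=
  ((Finset.range a).filter (fun b => p.len i ∣ b ∧ tau i s b = t)).card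

/-- The structure of the infinite words used in the construction: `tau i s a` is the type of the
level-`i` block starting at `a` for the `s`-th typing, `C i a b` says that the cores of the
level-`i` blocks at `a`, `b` agree. -/
structure Good (p : Par) {A : Type} (w : ℕ → A) (tau : ℕ → ℕ → ℕ → ℕ)
    (C : ℕ → ℕ → ℕ → Prop) : Prop where
  /-- agreement of two blocks implies agreement of their cores -/
  coreOf : ∀ i a b, p.len i ∣ a → p.len i ∣ b → Ag w a b (p.len i) → C i a b
  /-- at levels at least 1 the core is the whole block -/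
  coreAg : ∀ i a b, 1 ≤ i → p.len i ∣ a → p.len i ∣ b → C i a b → Ag w a b (p.len i)
  /-- a core determines the position modulo the period -/
  know : ∀ i a b, p.len i ∣ a → p.len i ∣ b → C i a b → a ≡ b [MOD p.P i]
  /-- a window of length `wid i` determines the types of the block ... -/
  typ : ∀ i a b s, p.len i ∣ a → p.len i ∣ b → Ag w a b (p.wid i) → tau i s a = tau i s b
  /-- ... and the number of its own type modulo `q` -/
  label : ∀ i a b s, p.len i ∣ a → p.len i ∣ b → Ag w a b (p.wid i) →
    cnt p tau i s (tau i s a) a ≡ cnt p tau i s (tau i s a) b [MOD p.q]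
  /-- a window of length `nu i` determines all counters modulo `q` -/
  window : ∀ i a b s t, p.nu i ∣ a → p.nu i ∣ b → Ag w a b (p.nu i) →
    cnt p tau i s t a ≡ cnt p tau i s t b [MOD p.q]
  /-- blocks of the same type are far apart -/
  sparse : ∀ i a b s, p.len i ∣ a → p.len i ∣ b → a < b → tau i s a = tau i s b → a + p.P i ≤ b
  /-- some typing separates the cores of a small set of blocks from the core of a given block -/
  sep : ∀ i a, p.len i ∣ a → ∀ F : Finset ℕ, (∀ b ∈ F, p.len i ∣ b) → F.card ≤ p.B →
    ∃ s, ∀ b ∈ F, tau i s b = tau i s a → C i b a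
  /-- at level 0 the core determines the types ... -/
  coreTyp : ∀ a b s, C 0 a b → tau 0 s a = tau 0 s b
  /-- ... and the core together with the labels determines the letter -/
  coreEq : ∀ a b, C 0 a b →
    (∀ s, cnt p tau 0 s (tau 0 s a) a ≡ cnt p tau 0 s (tau 0 s a) b [MOD p.q]) → w a = w b

/-- A valid view of the word `w 0, ..., w (m - 1)` in the ruler sequence: the variable `x` is
sent to the segment `[a x, b x)` of the ruler sequence and the word to `[τ, τe)`. -/
def VP (a b : ℕ → ℕ) (τ τe : ℕ) (w : ℕ → ℕ) (m : ℕ) : Prop :=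
  ∃ T : ℕ → ℕ, T 0 = τ ∧ T m = τe ∧ ∀ k < m, T (k + 1) + a (w k) = T k + b (w k) ∧
    ∀ j, a (w k) + j < b (w k) → v2 (T k + j) = v2 (a (w k) + j)

end Pool.Agent.Helper68.SG
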