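import Pool.Agent.Helper51.SG.PartA

/-! Assembly of the proof of S01797 from the parts A, B, C, D (written by helper51, adapted to the final form of part B). -/

set_option autoImplicit false

namespace Pool.Agent.Helper68.SGMain

open Pool.Agent.Helper68.SG Pool.Agent.Helper51.SG

/-- the list `l` is read in the sequence `f` at position `i` -/
def Fct {X : Type} (f : ℕ → X) (i : ℕ) (l : List X) : Prop := l = (List.range' i l.length).map f

lemma fct_append {X : Type} (f : ℕ → X) (i : ℕ) (l l' : List X) :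
    Fct f i (l ++ l') ↔ Fct f i l ∧ Fct f (i + l.length) l' := by
  unfold Fct
  rw [List.length_append, ← List.range'_append_1, List.map_append]
  constructor
  · intro h
    exact List.append_inj h (by simp)
  · rintro ⟨h1, h2⟩
    rw [← h1, ← h2]

lemma fct_iff {X : Type} (f : ℕ → X) (i : ℕ) (l : List X) :
    Fct f i l ↔ ∀ t (h : t < l.length), l[t] = f (i + t) := by
  unfold Fct
  constructor
  · intro h t ht
    have h1 : l[t]? = ((List.range' i l.length).map f)[t]? := by rw [← h]
    rw [List.getElem?_eq_getElem ht] at h1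
    simp [ht] at h1
    exact h1
  · intro h
    apply List.ext_getElem
    · simp
    · intro t h1 h2
      rw [h t h1]
      simp

lemma fct_flatMap {X Y : Type} (f : ℕ → X) (φ : Y → List X) : ∀ (U : List Y) (i : ℕ),
    Fct f i (U.flatMap φ) ↔ ∀ k (h : k < U.length),
      Fct f (i + ((U.take k).flatMap φ).length) (φ U[k]) := by
  intro U
  induction U with
  | nil =>
    intro i
    simp [Fct]
  | cons x U ih =>
    intro i
    rw [List.flatMap_cons, fct_append, ih]
    constructor
    · rintro ⟨h1, h2⟩ k hk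
      cases k with
      | zero => simpa using h1
      | succ k =>
        have := h2 k (by simpa using hk)
        simpa [Nat.add_assoc] using this
    · intro h
      have h0 : Fct f (i + (((x :: U).take 0).flatMap φ).length) (φ x) := h 0 (by simp)
      refine ⟨by simpa using h0, fun k hk => ?_⟩
      have := h (k + 1) (by simpa using hk)
      simpa [Nat.add_assoc] using this

lemma take_flatMap_succ {X Y : Type} (φ : Y → List X) (U : List Y) (k : ℕ) (h : k < U.length) :
    ((U.take (k + 1)).flatMap φ).length = ((U.take k).flatMap φ).length + (φ U[k]).length := by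
  rw [List.take_succ_eq_append_getElem h, List.flatMap_append, List.length_append,
    List.flatMap_singleton]

lemma getD_eq (U : List ℕ) (k : ℕ) (h : k < U.length) : U.getD k 0 = U[k] := by
  simp [List.getD_eq_getElem?_getD, List.getElem?_eq_getElem h]

lemma HC_of (U V : List ℕ) (hR : RulComm U V) (hlen : V.length = U.length) :
    ∀ (a b : ℕ → ℕ) (τ τe : ℕ), 0 < τ → (∀ x, 0 < a x ∧ a x < b x) →
      VP a b τ τe (fun k => U.getD k 0) U.length → VP a b τ τe (fun k => V.getD k 0) U.length := by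
  intro a b τ τe hτ hab hV
  obtain ⟨T, hT0, hTm, hT⟩ := hV
  set ψ : ℕ → List ℕ := fun x => (List.range' (a x) (b x - a x)).map v2 with hψ
  have hψl : ∀ x, (ψ x).length = b x - a x := by
    intro x
    simp [hψ]
  have hTk : ∀ k ≤ U.length, T k = τ + ((U.take k).flatMap ψ).length := by
    intro k hk
    induction k with
    | zero => simp [hT0]
    | succ k ih =>
      have hk' : k < U.length := hk
      have h1 := (hT k hk').1
      rw [take_flatMap_succ ψ U k hk', hψl]
      simp only [getD_eq U k hk'] at h1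
      have h2 := ih hk'.le
      have h3 := (hab U[k]).2
      omega
  have hfct : Fct v2 τ (U.flatMap ψ) := by
    rw [fct_flatMap]
    intro k hk
    rw [← hTk k hk.le, fct_iff]
    intro t ht
    have ht' : t < b U[k] - a U[k] := by rwa [hψl] at ht
    have h1 := (hT k hk).2 t
    simp only [getD_eq U k hk] at h1
    rw [h1 (by omega)]
    simp [hψ]
  have hrul : IsRul (U.flatMap ψ) := ⟨τ, hτ, hfct⟩
  have hne : ∀ x, ψ x ≠ [] := by
    intro x h
    have h1 := congrArg List.length h
    rw [hψl] at h1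
    have := (hab x).2
    simp at h1
    omega
  have hVU := hR ψ hne hrul
  have hfctV : Fct v2 τ (V.flatMap ψ) := by rw [hVU]; exact hfct
  refine ⟨fun k => τ + ((V.take k).flatMap ψ).length, by simp, ?_, ?_⟩
  · show τ + ((V.take U.length).flatMap ψ).length = τe
    rw [← hlen, List.take_length, hVU, ← hTm, hTk _ le_rfl, List.take_length]
  · intro k hk
    rw [← hlen] at hk
    have h3 := hab V[k]
    refine ⟨?_, ?_⟩
    · show τ + ((V.take (k + 1)).flatMap ψ).length + a (V.getD k 0) =
        τ + ((V.take k).flatMap ψ).length + b (V.getD k 0)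
      rw [take_flatMap_succ ψ V k hk, hψl, getD_eq V k hk]
      omega
    · intro j hj
      show v2 (τ + ((V.take k).flatMap ψ).length + j) = v2 (a (V.getD k 0) + j)
      simp only [getD_eq V k hk] at hj ⊢
      have h4 := (fct_flatMap v2 ψ V τ).1 hfctV k hk
      rw [fct_iff] at h4
      have h5 := h4 j (by rw [hψl]; omega)
      rw [← h5]
      simp [hψ]

/-- The statement of part B. -/
def PartB : Prop := ∀ {A : Type} (p : Par) (_ : p.Ok) (w : ℕ → A) (tau : ℕ → ℕ → ℕ → ℕ)
    (C : ℕ → ℕ → ℕ → Prop) (_ : Good p w tau C) (m : ℕ) (_ : m ≤ p.n) (u v : ℕ → ℕ)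
    (_ : ∀ k < m, ∃ k' < m, u k' = v k)
    (_ : ∀ k < m, ∃ k' < m, v k' = u k)
    (_ : ∀ (a b : ℕ → ℕ) (τ τe : ℕ), 0 < τ → (∀ x, 0 < a x ∧ a x < b x) →
      VP a b τ τe u m → VP a b τ τe v m)
    (s nn : ℕ → ℕ) (_ : ∀ x, 1 ≤ nn x) (Tu Tv : ℕ → ℕ) (_ : Tv 0 = Tu 0) (_ : Tv m = Tu m)
    (_ : ∀ k < m, Tu (k + 1) = Tu k + nn (u k)) (_ : ∀ k < m, Tv (k + 1) = Tv k + nn (v k))
    (_ : ∀ k < m, Ag w (Tu k) (s (u k)) (nn (u k)))
    (_ : ∀ k < m, ∃ k' < m, u k' = u k ∧ s (u k) = Tu k'),
    ∀ k < m, Ag w (Tv k) (s (v k)) (nn (v k))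

lemma fix_of (hB : PartB) {A : Type} (p : Par) (hp : p.Ok) (w : ℕ → A)
    (hG : ∃ tau C, Good p w tau C) (U V : List ℕ) (hUV : U.Perm V) (hlen : U.length ≤ p.n)
    (hR : RulComm U V) (φ : ℕ → List A) (hφ : ∀ x, φ x ≠ []) (i : ℕ)
    (hU : Fct w i (U.flatMap φ)) : V.flatMap φ = U.flatMap φ := by
  classical
  obtain ⟨tau, C, hG⟩ := hG
  have hVl : V.length = U.length := hUV.length_eq.symm
  set Tu : ℕ → ℕ := fun k => i + ((U.take k).flatMap φ).length with hTu
  set Tv : ℕ → ℕ := fun k => i + ((V.take k).flatMap φ).length with hTv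
  have hUk := (fct_flatMap w φ U i).1 hU
  have hex : ∀ x, ∃ s : ℕ, x ∈ U → ∃ k, ∃ h : k < U.length, U[k] = x ∧ s = Tu k := by
    intro x
    by_cases hx : x ∈ U
    · obtain ⟨k, hk, hkx⟩ := List.getElem_of_mem hx
      exact ⟨Tu k, fun _ => ⟨k, hk, hkx, rfl⟩⟩
    · exact ⟨0, fun h => absurd h hx⟩
  choose s hs using hex
  have hlenflat : (V.flatMap φ).length = (U.flatMap φ).length :=
    (perm_flatMap hUV.symm φ).length_eq
  have hs' : ∀ x ∈ U, Fct w (s x) (φ x) := by
    intro x hx
    obtain ⟨k, hk, hkx, hsk⟩ := hs x hx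
    have := hUk k hk
    rw [hkx] at this
    rw [hsk]
    exact this
  have key := hB p hp w tau C hG U.length hlen (fun k => U.getD k 0) (fun k => V.getD k 0)
    (by
      intro k hk
      rw [← hVl] at hk
      have hmem : V[k] ∈ U := hUV.mem_iff.2 (List.getElem_mem hk)
      obtain ⟨k', hk', h⟩ := List.getElem_of_mem hmem
      refine ⟨k', hk', ?_⟩
      show U.getD k' 0 = V.getD k 0
      rw [getD_eq U k' hk', getD_eq V k hk, h])
    (by
      intro k hk
      have hmem : U[k] ∈ V := hUV.mem_iff.1 (List.getElem_mem hk)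
      obtain ⟨k', hk', h⟩ := List.getElem_of_mem hmem
      rw [hVl] at hk'
      refine ⟨k', hk', ?_⟩
      show V.getD k' 0 = U.getD k 0
      rw [getD_eq U k hk, getD_eq V k' (by rw [hVl]; exact hk'), h])
    (HC_of U V hR hVl) s (fun x => (φ x).length)
    (fun x => Nat.one_le_iff_ne_zero.2 (fun h => hφ x (List.length_eq_zero_iff.1 h)))
    Tu Tv (by simp [hTu, hTv])
    (by
      show i + ((V.take U.length).flatMap φ).length = i + ((U.take U.length).flatMap φ).length
      rw [← hVl, List.take_length, hVl, List.take_length, hlenflat])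
    (by
      intro k hk
      show i + ((U.take (k + 1)).flatMap φ).length =
        i + ((U.take k).flatMap φ).length + (φ (U.getD k 0)).length
      rw [take_flatMap_succ φ U k hk, getD_eq U k hk]
      omega)
    (by
      intro k hk
      rw [← hVl] at hk
      show i + ((V.take (k + 1)).flatMap φ).length =
        i + ((V.take k).flatMap φ).length + (φ (V.getD k 0)).length
      rw [take_flatMap_succ φ V k hk, getD_eq V k hk]
      omega)
    (by
      intro k hk t ht
      change t < (φ (U.getD k 0)).length at ht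
      show w (Tu k + t) = w (s (U.getD k 0) + t)
      rw [getD_eq U k hk] at ht ⊢
      have h1 := (fct_iff _ _ _).1 (hUk k hk) t ht
      have h2 := (fct_iff _ _ _).1 (hs' U[k] (List.getElem_mem hk)) t ht
      rw [← h2, h1])
    (by
      intro k hk
      obtain ⟨k', hk', h1, h2⟩ := hs U[k] (List.getElem_mem hk)
      refine ⟨k', hk', ?_, ?_⟩
      · show U.getD k' 0 = U.getD k 0
        rw [getD_eq U k' hk', getD_eq U k hk, h1]
      · show s (U.getD k 0) = Tu k'
        rw [getD_eq U k hk, h2])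
  have hVf : Fct w i (V.flatMap φ) := by
    rw [fct_flatMap]
    intro k hk
    rw [fct_iff]
    intro t ht
    have h1 := key k (by rw [← hVl]; exact hk) t (by
      show t < (φ (V.getD k 0)).length
      rw [getD_eq V k hk]
      exact ht)
    change w (Tv k + t) = w (s (V.getD k 0) + t) at h1
    rw [getD_eq V k hk] at h1
    have h2 := (fct_iff _ _ _).1 (hs' V[k] (hUV.mem_iff.2 (List.getElem_mem hk))) t ht
    rw [h2]
    exact h1.symm
  rw [hVf, hU, hlenflat]

/-- The statement of part C. -/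
def PartC : Prop := ∀ n : ℕ, ∃ p : Par, n ≤ p.n ∧ p.Ok ∧
    ∃ (A : Type) (_ : Fintype A) (w : (ℕ → Bool) → ℕ → A),
      (∀ b, ∃ tau C, Good p (w b) tau C) ∧ (∀ b b' j, w b j = w b' j → b j = b' j)

/-- The statement of part D. -/
def PartD : Prop := ∀ (E : List (FreeSemigroup ℕ × FreeSemigroup ℕ))
    (_ : ∀ p ∈ E, (toL p.1).Perm (toL p.2))
    (A : Type) [Fintype A] (L : Set (List A))
    (_ : ∀ w ∈ L, ∀ z : List A, z <:+: w → z ∈ L)
    (_ : ∀ N : ℕ, ∃ f : (Fin N → Bool) → List A,
      Function.Injective f ∧ ∀ b, f b ∈ L ∧ (f b).length = N)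
    (_ : ∀ p ∈ E, ∀ φ : ℕ → List A, (∀ x, φ x ≠ []) →
      ((toL p.1).flatMap φ ∈ L → (toL p.2).flatMap φ = (toL p.1).flatMap φ) ∧
      ((toL p.2).flatMap φ ∈ L → (toL p.1).flatMap φ = (toL p.2).flatMap φ)),
    Concl E

theorem main_of (hB : PartB) (hC : PartC) (hD : PartD)
    (E : List (FreeSemigroup ℕ × FreeSemigroup ℕ))
    (h1 : ∃ (S : Type) (_ : Semigroup S),
          (∀ p ∈ E, ∀ f : FreeSemigroup ℕ →ₙ* S, f p.1 = f p.2) ∧
          ∃ a : S, (Subsemigroup.closure ({a} : Set S) : Set S).Infinite)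
    (h2 : ∃ (S : Type) (_ : Semigroup S),
          (∀ p ∈ E, ∀ f : FreeSemigroup ℕ →ₙ* S, f p.1 = f p.2) ∧
          (∀ a : S, (Subsemigroup.closure ({a} : Set S) : Set S).Finite) ∧
          ∃ A : Set S, A.Finite ∧ (Subsemigroup.closure A : Set S).Infinite) :
    Concl E := by
  classical
  have hA := partA E h1 h2
  obtain ⟨n, hn⟩ : ∃ n : ℕ, ∀ p ∈ E, (toL p.1).length ≤ n := by
    refine ⟨(E.map (fun p => (toL p.1).length)).sum, fun p hp => ?_⟩
    exact List.single_le_sum (fun x _ => Nat.zero_le x) _ (List.mem_map.2 ⟨p, hp, rfl⟩)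
  obtain ⟨P, hnP, hP, A, iA, w, hw, hwb⟩ := hC n
  refine hD E (fun p hp => (hA p hp).1) A {z | ∃ b i, Fct (w b) i z} ?_ ?_ ?_
  · rintro z ⟨b, i, hz⟩ z' ⟨s, t, rfl⟩
    rw [fct_append, fct_append] at hz
    exact ⟨b, _, hz.1.2⟩
  · intro N
    refine ⟨fun b => (List.range' 0 N).map (w (fun j => if h : j < N then b ⟨j, h⟩ else false)),
      ?_, ?_⟩
    · intro b b' hbb
      funext j
      have h1 : ((List.range' 0 N).map (w (fun j => if h : j < N then b ⟨j, h⟩ else false)))[j.1]? =
        ((List.range' 0 N).map (w (fun j => if h : j < N then b' ⟨j, h⟩ else false)))[j.1]? := by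
        have := hbb
        simp only at this
        rw [this]
      simp at h1
      have h2 := hwb _ _ _ h1
      simpa using h2
    · intro b
      refine ⟨⟨fun j => if h : j < N then b ⟨j, h⟩ else false, 0, ?_⟩, by simp⟩
      unfold Fct
      simp
  · intro p hp φ hφ
    have hperm := (hA p hp).1
    refine ⟨?_, ?_⟩
    · rintro ⟨b, i, hz⟩
      exact fix_of hB P hP (w b) (hw b) _ _ hperm ((hn p hp).trans hnP) (hA p hp).2.1 φ hφ i hz
    · rintro ⟨b, i, hz⟩
      exact fix_of hB P hP (w b) (hw b) _ _ hperm.symm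
        ((hperm.length_eq ▸ hn p hp).trans hnP) (hA p hp).2.2 φ hφ i hz

end Pool.Agent.Helper68.SGMain
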