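import Pool.Agent.Helper68.SG.B7d

/-! Part B: assembly. -/

set_option autoImplicit false

namespace Pool.Agent.Helper68.SG

open Pool.Agent.Helper51.SG Pool.Agent.Helper31.SG

theorem claim_all {A : Type} {p : Par} {w : ℕ → A} {tau : ℕ → ℕ → ℕ → ℕ}
    {C : ℕ → ℕ → ℕ → Prop} {m : ℕ} {u v s nn Tu Tv : ℕ → ℕ}
    (hc : Ctx p w tau C m u v s nn Tu Tv) : Claim p C m u v s nn Tv 0 := by
  -- a level above all lengths
  have hlev : ∃ i, ∀ k < m, nn (u k) < Lam p i := by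
    have h1 := hc.ok.n_pos
    have h2 := hc.ok.r_ge
    refine ⟨∑ k ∈ Finset.range m, nn (u k) + 1, ?_⟩
    intro k hk
    have h3 : nn (u k) ≤ ∑ k ∈ Finset.range m, nn (u k) :=
      Finset.single_le_sum (f := fun k => nn (u k)) (fun _ _ => Nat.zero_le _)
        (Finset.mem_range.2 hk)
    set N := ∑ k ∈ Finset.range m, nn (u k) with hN
    have h4 : N + 1 < p.r ^ (N + 1) := Nat.lt_pow_self (by omega)
    unfold Lam
    rw [if_neg (Nat.succ_ne_zero N)]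
    have h5 : p.r ^ (N + 1) ≤ 16 * p.n * p.r ^ (N + 1) := Nat.le_mul_of_pos_left _ (by omega)
    omega
  obtain ⟨i, hi⟩ := hlev
  have htop : Claim p C m u v s nn Tv i := by
    rintro ⟨k, hk, hb⟩
    have := hi k hk
    omega
  clear hi
  induction i with
  | zero => exact htop
  | succ i ih => exact ih (claimStep hc i htop)

theorem partB {A : Type} (p : Par) (hp : p.Ok) (w : ℕ → A) (tau : ℕ → ℕ → ℕ → ℕ)
    (C : ℕ → ℕ → ℕ → Prop) (hG : Good p w tau C) (m : ℕ) (hm : m ≤ p.n) (u v : ℕ → ℕ)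
    (hvu : ∀ k < m, ∃ k' < m, u k' = v k)
    (huv : ∀ k < m, ∃ k' < m, v k' = u k)
    (HC : ∀ (a b : ℕ → ℕ) (τ τe : ℕ), 0 < τ → (∀ x, 0 < a x ∧ a x < b x) →
      VP a b τ τe u m → VP a b τ τe v m)
    (s nn : ℕ → ℕ) (hnn : ∀ x, 1 ≤ nn x) (Tu Tv : ℕ → ℕ) (hT0 : Tv 0 = Tu 0) (hTm : Tv m = Tu m)
    (hTu : ∀ k < m, Tu (k + 1) = Tu k + nn (u k)) (hTv : ∀ k < m, Tv (k + 1) = Tv k + nn (v k))
    (occ : ∀ k < m, Ag w (Tu k) (s (u k)) (nn (u k)))
    (ref : ∀ k < m, ∃ k' < m, u k' = u k ∧ s (u k) = Tu k') :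
    ∀ k < m, Ag w (Tv k) (s (v k)) (nn (v k)) := by
  have hc : Ctx p w tau C m u v s nn Tu Tv :=
    { ok := hp
      good := hG
      hm := hm
      hvu := hvu
      huv := huv
      HC := HC
      hnn := hnn
      hT0 := hT0
      hTm := hTm
      hTu := hTu
      hTv := hTv
      occ := occ
      ref := ref }
  exact final hc (claim_all hc)

end Pool.Agent.Helper68.SG
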